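import Pool.Agent.H67.OmArc.Coverage

set_option autoImplicit false

/-!
# Measure of arcs, and lower bounds for the covered angles
-/

namespace Pool.Agent.H67.OmArc

open Complex Metric Set Filter Topology MeasureTheory

/-- angles in `(-π,π]` that are congruent modulo `2π` to some point of `[s,t]` -/
def arcSet (s t : ℝ) : Set ℝ :=
  {θ : ℝ | θ ∈ Ioc (-Real.pi) Real.pi ∧
    ∃ τ ∈ Icc s t, Complex.exp (θ * Complex.I) = Complex.exp (τ * Complex.I)}

lemma exp_eq_iff {θ τ : ℝ} : Complex.exp (θ * Complex.I) = Complex.exp (τ * Complex.I) ↔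
    ∃ n : ℤ, θ = τ + n * (2 * Real.pi) := by
  rw [Complex.exp_eq_exp_iff_exists_int]
  constructor
  · rintro ⟨n, hn⟩
    refine ⟨n, ?_⟩
    have h1 : ((θ : ℂ) - (τ + n * (2 * Real.pi))) * Complex.I = 0 := by
      linear_combination hn
    rcases mul_eq_zero.1 h1 with h2 | h2
    · have h3 : ((θ - (τ + n * (2 * Real.pi)) : ℝ) : ℂ) = 0 := by
        push_cast
        exact h2
      have := Complex.ofReal_eq_zero.1 h3
      linarith
    · exact absurd h2 Complex.I_ne_zero
  · rintro ⟨n, hn⟩
    refine ⟨n, ?_⟩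
    rw [hn]
    push_cast
    ring

lemma volume_arcSet {s t : ℝ} (_hst : s ≤ t) : volume (arcSet s t) ≤ ENNReal.ofReal (t - s) := by
  have hpi : 0 < Real.pi := Real.pi_pos
  rcases le_or_gt (2 * Real.pi) (t - s) with hbig | hsmall
  · calc volume (arcSet s t) ≤ volume (Ioc (-Real.pi) Real.pi) := measure_mono fun _ h => h.1
      _ = ENNReal.ofReal (2 * Real.pi) := by rw [Real.volume_Ioc]; congr 1; ring
      _ ≤ ENNReal.ofReal (t - s) := ENNReal.ofReal_le_ofReal hbig
  · -- shift `s` into `(-π, π]`
    set n : ℤ := ⌈(s - Real.pi) / (2 * Real.pi)⌉ with hn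
    set s' : ℝ := s - n * (2 * Real.pi) with hs'
    set t' : ℝ := t - n * (2 * Real.pi) with ht'
    have h2pi : 0 < 2 * Real.pi := by positivity
    have hs1 : s' ≤ Real.pi := by
      have := Int.le_ceil ((s - Real.pi) / (2 * Real.pi))
      rw [div_le_iff₀ h2pi] at this
      rw [hs']; linarith
    have hs2 : -Real.pi < s' := by
      have h := Int.ceil_lt_add_one ((s - Real.pi) / (2 * Real.pi))
      rw [← hn] at h
      have h2 : ((n : ℝ) - 1) < (s - Real.pi) / (2 * Real.pi) := by linarith
      rw [lt_div_iff₀ h2pi] at h2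
      rw [hs']; linarith
    have hts : t' - s' = t - s := by rw [hs', ht']; ring
    have hsub : arcSet s t ⊆ Icc s' (min t' Real.pi) ∪ Icc (-Real.pi) (t' - 2 * Real.pi) := by
      rintro θ ⟨⟨h1, h2⟩, τ, ⟨h3, h4⟩, h5⟩
      obtain ⟨k, hk⟩ := exp_eq_iff.1 h5
      -- `θ = τ' + j 2π` with `τ' ∈ [s',t']`
      set j : ℤ := k + n with hj
      have hk' : θ = (τ - n * (2 * Real.pi)) + j * (2 * Real.pi) := by
        rw [hk, hj]; push_cast; ring
      set τ' : ℝ := τ - n * (2 * Real.pi) with hτ'
      have h6 : s' ≤ τ' := by rw [hs', hτ']; linarith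
      have h7 : τ' ≤ t' := by rw [ht', hτ']; linarith
      have hj1 : j ≤ 0 := by
        by_contra hcon
        push Not at hcon
        have : (1 : ℝ) ≤ j := by exact_mod_cast hcon
        nlinarith
      have hj2 : -1 ≤ j := by
        by_contra hcon
        push Not at hcon
        have h8 : j ≤ -2 := by omega
        have : (j : ℝ) ≤ -2 := by exact_mod_cast h8
        nlinarith
      have hj3 : j = 0 ∨ j = -1 := by omega
      rcases hj3 with hj0 | hj0
      · left
        rw [hj0] at hk'
        simp only [Int.cast_zero, zero_mul, add_zero] at hk'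
        rw [hk']
        exact ⟨h6, le_min h7 (by rw [← hk']; exact h2)⟩
      · right
        rw [hj0] at hk'
        push_cast at hk'
        constructor
        · exact h1.le
        · rw [hk']; linarith
    rcases le_or_gt t' Real.pi with htp | htp
    · calc volume (arcSet s t) ≤ volume (Icc s' (min t' Real.pi) ∪
            Icc (-Real.pi) (t' - 2 * Real.pi)) := measure_mono hsub
        _ ≤ volume (Icc s' (min t' Real.pi)) + volume (Icc (-Real.pi) (t' - 2 * Real.pi)) :=
            measure_union_le _ _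
        _ = ENNReal.ofReal (t - s) := by
            rw [min_eq_left htp, Real.volume_Icc, Real.volume_Icc,
              ENNReal.ofReal_of_nonpos (by linarith : t' - 2 * Real.pi - -Real.pi ≤ 0), add_zero,
              hts]
    · calc volume (arcSet s t) ≤ volume (Icc s' (min t' Real.pi) ∪
            Icc (-Real.pi) (t' - 2 * Real.pi)) := measure_mono hsub
        _ ≤ volume (Icc s' (min t' Real.pi)) + volume (Icc (-Real.pi) (t' - 2 * Real.pi)) :=
            measure_union_le _ _
        _ = ENNReal.ofReal (t - s) := by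
            rw [min_eq_right htp.le, Real.volume_Icc, Real.volume_Icc,
              ← ENNReal.ofReal_add (by linarith) (by linarith)]
            congr 1
            linarith

/-- If the uncovered angles are contained in an arc of length `ℓ`, then at least `2π - ℓ` is
covered. -/
lemma cov_ge {D : Set ℂ} (_hD : IsOpen D) {r ℓ : ℝ} {E : Set ℝ}
    (hE : volume E ≤ ENNReal.ofReal ℓ) (hl : 0 ≤ ℓ)
    (h : ∀ θ ∈ Ioc (-Real.pi) Real.pi, (r : ℂ) * Complex.exp (θ * Complex.I) ∉ D → θ ∈ E) :
    ENNReal.ofReal (2 * Real.pi - ℓ) ≤ cov D r := by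
  have h1 : Ioc (-Real.pi) Real.pi ⊆ covSet D r ∪ E := by
    intro θ hθ
    by_cases hc : (r : ℂ) * Complex.exp (θ * Complex.I) ∈ D
    · exact Or.inl ⟨hθ, hc⟩
    · exact Or.inr (h θ hθ hc)
  have h2 : ENNReal.ofReal (2 * Real.pi) ≤ cov D r + ENNReal.ofReal ℓ := by
    calc ENNReal.ofReal (2 * Real.pi) = volume (Ioc (-Real.pi) Real.pi) := by
          rw [Real.volume_Ioc]; congr 1; ring
      _ ≤ volume (covSet D r ∪ E) := measure_mono h1
      _ ≤ volume (covSet D r) + volume E := measure_union_le _ _
      _ ≤ cov D r + ENNReal.ofReal ℓ := by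
          unfold cov
          gcongr
  rw [ENNReal.ofReal_sub _ hl]
  exact tsub_le_iff_right.2 h2

end Pool.Agent.H67.OmArc
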