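import Pool.Agent.H67.OmArc.Growth

set_option autoImplicit false

/-!
# Sequential compactness of `S^c`
-/

namespace Pool.Agent.H67.OmArc

open Complex Metric Set Filter Topology

/-- Taylor coefficients at the origin -/
noncomputable def cf (f : ℂ → ℂ) (k : ℕ) : ℂ := ((k.factorial : ℂ))⁻¹ * iteratedDeriv k f 0

lemma hasSum_cf {f : ℂ → ℂ} (hf : DifferentiableOn ℂ f (ball 0 1)) {z : ℂ}
    (hz : z ∈ ball (0 : ℂ) 1) : HasSum (fun k => cf f k * z ^ k) (f z) := by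
  have h := Complex.hasSum_taylorSeries_on_ball hf hz
  have heq : (fun n : ℕ => ((n.factorial : ℂ))⁻¹ • (z - 0) ^ n • iteratedDeriv n f 0) =
      fun k => cf f k * z ^ k := by
    funext n
    simp only [cf, smul_eq_mul, sub_zero]
    ring
  rw [heq] at h
  exact h

lemma cf_bound {f : ℂ → ℂ} (hf : f ∈ Sc) {R : ℝ} (h0 : 0 < R) (h1 : R < 1) (k : ℕ) :
    ‖cf f k‖ ≤ 4 * R / (1 - R) / R ^ k := by
  have hsub : closedBall (0 : ℂ) R ⊆ ball 0 1 := closedBall_subset_ball h1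
  have hd : DiffContOnCl ℂ f (ball 0 R) := by
    apply DifferentiableOn.diffContOnCl
    apply hf.1.mono
    rw [closure_ball _ h0.ne']
    exact hsub
  have hb : ∀ z ∈ sphere (0 : ℂ) R, ‖f z‖ ≤ 4 * R / (1 - R) := by
    intro z hz
    have hzn : ‖z‖ = R := by simpa using hz
    have := growth hf (hsub (sphere_subset_closedBall hz))
    rwa [hzn] at this
  have h := Complex.norm_iteratedDeriv_le_of_forall_mem_sphere_norm_le k h0 hd hb
  unfold cf
  rw [norm_mul, norm_inv, Complex.norm_natCast]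
  have hk : (0 : ℝ) < k.factorial := by exact_mod_cast k.factorial_pos
  rw [inv_mul_le_iff₀ hk]
  calc ‖iteratedDeriv k f 0‖ ≤ k.factorial * (4 * R / (1 - R)) / R ^ k := h
    _ = k.factorial * (4 * R / (1 - R) / R ^ k) := by ring

/-- A Hurwitz type lemma. -/
lemma eventually_mem_image {fn : ℕ → ℂ → ℂ} {F : ℂ → ℂ}
    (hfn : ∀ n, DifferentiableOn ℂ (fn n) (ball 0 1)) (hinj : ∀ n, InjOn (fn n) (ball 0 1))
    (hF : DifferentiableOn ℂ F (ball 0 1))
    (hunif : ∀ ρ < 1, TendstoUniformlyOn fn F atTop (closedBall 0 ρ)) (hnc : deriv F 0 ≠ 0)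
    {z₀ : ℂ} (hz₀ : z₀ ∈ ball (0 : ℂ) 1) {δ : ℝ} (hδ : 0 < δ) :
    ∀ᶠ n in atTop, ∃ z ∈ ball z₀ δ, z ∈ ball (0 : ℂ) 1 ∧ fn n z = F z₀ := by
  have han : AnalyticOnNhd ℂ F (ball 0 1) := hF.analyticOnNhd isOpen_ball
  have h0mem : (0 : ℂ) ∈ ball (0 : ℂ) 1 := by simp
  have hiso : ∀ᶠ z in 𝓝[≠] z₀, F z ≠ F z₀ := by
    rcases (han z₀ hz₀).eventually_eq_or_eventually_ne (analyticAt_const (v := F z₀)) with h | h
    · exfalso
      have heq : EqOn F (fun _ => F z₀) (ball 0 1) :=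
        han.eqOn_of_preconnected_of_eventuallyEq analyticOnNhd_const ball_isPreconnected hz₀ h
      apply hnc
      have : F =ᶠ[𝓝 0] fun _ => F z₀ := by
        filter_upwards [isOpen_ball.mem_nhds h0mem] with z hz
        exact heq hz
      rw [this.deriv_eq]
      simp
    · exact h
  rw [eventually_nhdsWithin_iff, Metric.eventually_nhds_iff] at hiso
  obtain ⟨ε₀, hε₀, hiso⟩ := hiso
  rw [mem_ball_zero_iff] at hz₀
  set δ' : ℝ := min (min δ ε₀) (1 - ‖z₀‖) / 2 with hδ'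
  have hm : 0 < min (min δ ε₀) (1 - ‖z₀‖) := lt_min (lt_min hδ hε₀) (by linarith)
  have hδ'pos : 0 < δ' := by positivity
  have hδ'1 : δ' < δ := by
    have : min (min δ ε₀) (1 - ‖z₀‖) ≤ δ := (min_le_left _ _).trans (min_le_left _ _)
    linarith
  have hδ'2 : δ' < ε₀ := by
    have : min (min δ ε₀) (1 - ‖z₀‖) ≤ ε₀ := (min_le_left _ _).trans (min_le_right _ _)
    linarith
  have hδ'3 : ‖z₀‖ + δ' < 1 := by
    have : min (min δ ε₀) (1 - ‖z₀‖) ≤ 1 - ‖z₀‖ := min_le_right _ _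
    linarith
  have hsub : closedBall z₀ δ' ⊆ closedBall 0 (‖z₀‖ + δ') := by
    intro z hz
    rw [mem_closedBall_zero_iff]
    rw [mem_closedBall, dist_eq_norm] at hz
    calc ‖z‖ = ‖z₀ + (z - z₀)‖ := by rw [add_sub_cancel]
      _ ≤ ‖z₀‖ + ‖z - z₀‖ := norm_add_le _ _
      _ ≤ ‖z₀‖ + δ' := by linarith
  have hsub1 : closedBall z₀ δ' ⊆ ball 0 1 := hsub.trans (closedBall_subset_ball hδ'3)
  have hcomp : IsCompact (sphere z₀ δ') := isCompact_sphere z₀ δ'
  have hne : (sphere z₀ δ').Nonempty := NormedSpace.sphere_nonempty.2 hδ'pos.le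
  have hcont : ContinuousOn (fun z => ‖F z - F z₀‖) (sphere z₀ δ') :=
    ((hF.continuousOn.mono (sphere_subset_closedBall.trans hsub1)).sub continuousOn_const).norm
  obtain ⟨z₁, hz₁, hmin⟩ := hcomp.exists_isMinOn hne hcont
  have hpos : 0 < ‖F z₁ - F z₀‖ := by
    rw [norm_pos_iff, sub_ne_zero]
    apply hiso
    · rw [mem_sphere.1 hz₁]; exact hδ'2
    · intro h
      have h2 : z₁ = z₀ := h
      rw [mem_sphere, h2, dist_self] at hz₁
      exact hδ'pos.ne hz₁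
  set ε := ‖F z₁ - F z₀‖ / 2 with hε
  have hεpos : 0 < ε := by positivity
  have hU := (Metric.tendstoUniformlyOn_iff.1 (hunif _ hδ'3)) (ε / 2) (by positivity)
  filter_upwards [hU] with n hn
  have hz₀' : z₀ ∈ closedBall (0 : ℂ) (‖z₀‖ + δ') := by
    rw [mem_closedBall_zero_iff]; linarith
  have hsph : ∀ z ∈ sphere z₀ δ', ε ≤ ‖fn n z - fn n z₀‖ := by
    intro z hz
    have h1 := hn z (hsub (sphere_subset_closedBall hz))
    have h2 := hn z₀ hz₀'
    have h3 : ‖F z₁ - F z₀‖ ≤ ‖F z - F z₀‖ := hmin hz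
    rw [dist_eq_norm] at h1 h2
    have h4 : ‖F z - F z₀‖ ≤ ‖F z - fn n z‖ + ‖fn n z - fn n z₀‖ + ‖F z₀ - fn n z₀‖ := by
      calc ‖F z - F z₀‖ = ‖(F z - fn n z) + (fn n z - fn n z₀) - (F z₀ - fn n z₀)‖ := by
            congr 1; ring
        _ ≤ ‖(F z - fn n z) + (fn n z - fn n z₀)‖ + ‖F z₀ - fn n z₀‖ := norm_sub_le _ _
        _ ≤ _ := by gcongr; exact norm_add_le _ _
    have h5 : ‖F z₁ - F z₀‖ = 2 * ε := by rw [hε]; ring
    linarith
  have hdc : DiffContOnCl ℂ (fn n) (ball z₀ δ') := by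
    apply DifferentiableOn.diffContOnCl
    apply (hfn n).mono
    rw [closure_ball _ hδ'pos.ne']
    exact hsub1
  have hfr := not_locally_const (hinj n) (hsub1 (mem_closedBall_self hδ'pos.le))
  have himg := hdc.ball_subset_image_closedBall hδ'pos hsph hfr
  have hmem : F z₀ ∈ ball (fn n z₀) (ε / 2) := hn z₀ hz₀'
  obtain ⟨z, hz, hfz⟩ := himg hmem
  exact ⟨z, closedBall_subset_ball hδ'1 hz, hsub1 hz, hfz⟩

/-- Sequential compactness of `S^c`. -/
theorem exists_subseq {fn : ℕ → ℂ → ℂ} (hfn : ∀ n, fn n ∈ Sc) :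
    ∃ F ∈ Sc, ∃ φ : ℕ → ℕ, StrictMono φ ∧ ∀ w ∈ img F, ∀ᶠ n in atTop, w ∈ img (fn (φ n)) := by
  have hK : IsCompact (Set.pi univ (fun k : ℕ => closedBall (0 : ℂ) (4 * 2 ^ k))) :=
    isCompact_univ_pi (fun k => isCompact_closedBall _ _)
  have hmem : ∀ n, cf (fn n) ∈ Set.pi univ (fun k : ℕ => closedBall (0 : ℂ) (4 * 2 ^ k)) := by
    intro n k _
    rw [mem_closedBall_zero_iff]
    have := cf_bound (hfn n) (R := 1 / 2) (by norm_num) (by norm_num) k
    calc ‖cf (fn n) k‖ ≤ 4 * (1 / 2) / (1 - 1 / 2) / (1 / 2) ^ k := this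
      _ = 4 * 2 ^ k := by
        rw [one_div, inv_pow]
        norm_num
  obtain ⟨a, -, φ, hφ, hlim⟩ := hK.tendsto_subseq hmem
  rw [tendsto_pi_nhds] at hlim
  have ha : ∀ R : ℝ, 0 < R → R < 1 → ∀ k, ‖a k‖ ≤ 4 * R / (1 - R) / R ^ k := by
    intro R h0 h1 k
    exact le_of_tendsto (hlim k).norm (Eventually.of_forall fun n => cf_bound (hfn _) h0 h1 k)
  set F : ℂ → ℂ := fun z => ∑' k, a k * z ^ k with hFdef
  have hunif : ∀ ρ < 1, TendstoUniformlyOn (fun n => fn (φ n)) F atTop (closedBall 0 ρ) := by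
    intro ρ hρ
    rcases lt_or_ge ρ 0 with hneg | hnn
    · rw [closedBall_eq_empty.2 hneg]
      exact tendstoUniformlyOn_empty
    obtain ⟨R, hR0, hR1, hρR⟩ : ∃ R : ℝ, 0 < R ∧ R < 1 ∧ ρ < R :=
      ⟨(1 + ρ) / 2, by linarith, by linarith, by linarith⟩
    set M := 4 * R / (1 - R) with hM
    have hM0 : 0 ≤ M := by
      rw [hM]
      have : 0 < 1 - R := by linarith
      positivity
    have hq : ρ / R < 1 := (div_lt_one hR0).2 hρR
    have hq0 : 0 ≤ ρ / R := by positivity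
    have hsum : Summable fun k : ℕ => 2 * M * (ρ / R) ^ k :=
      (summable_geometric_of_lt_one hq0 hq).mul_left _
    have hbd : ∀ n k, ‖cf (fn (φ n)) k - a k‖ * ρ ^ k ≤ 2 * M * (ρ / R) ^ k := by
      intro n k
      have h1 := cf_bound (hfn (φ n)) hR0 hR1 k
      have h2 := ha R hR0 hR1 k
      have h3 : ‖cf (fn (φ n)) k - a k‖ ≤ 2 * (M / R ^ k) := by
        calc ‖cf (fn (φ n)) k - a k‖ ≤ ‖cf (fn (φ n)) k‖ + ‖a k‖ := norm_sub_le _ _
          _ ≤ 2 * (M / R ^ k) := by linarith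
      calc ‖cf (fn (φ n)) k - a k‖ * ρ ^ k ≤ 2 * (M / R ^ k) * ρ ^ k := by gcongr
        _ = 2 * M * (ρ / R) ^ k := by rw [div_pow]; ring
    have hT : Tendsto (fun n => ∑' k, ‖cf (fn (φ n)) k - a k‖ * ρ ^ k) atTop
        (𝓝 (∑' _ : ℕ, (0 : ℝ))) := by
      apply tendsto_tsum_of_dominated_convergence hsum
      · intro k
        have h1 : Tendsto (fun n => cf (fn (φ n)) k - a k) atTop (𝓝 0) := by
          have := (hlim k).sub_const (a k)
          simpa using this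
        have h2 := h1.norm.mul_const (ρ ^ k)
        simpa using h2
      · refine Eventually.of_forall fun n k => ?_
        rw [Real.norm_of_nonneg (by positivity)]
        exact hbd n k
    rw [tsum_zero] at hT
    rw [Metric.tendstoUniformlyOn_iff]
    intro ε hε
    filter_upwards [hT.eventually (gt_mem_nhds hε)] with n hn z hz
    rw [mem_closedBall_zero_iff] at hz
    have hzb : z ∈ ball (0 : ℂ) 1 := by rw [mem_ball_zero_iff]; linarith
    have hs1 := hasSum_cf (hfn (φ n)).1 hzb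
    have hsa : Summable fun k => a k * z ^ k := by
      apply Summable.of_norm_bounded (g := fun k => 2 * M * (ρ / R) ^ k) hsum
      intro k
      rw [norm_mul, norm_pow]
      calc ‖a k‖ * ‖z‖ ^ k ≤ (M / R ^ k) * ρ ^ k := by
            gcongr
            exact ha R hR0 hR1 k
        _ = M * (ρ / R) ^ k := by rw [div_pow]; ring
        _ ≤ 2 * M * (ρ / R) ^ k := by
            have : 0 ≤ M * (ρ / R) ^ k := by positivity
            nlinarith
    have hs2 : HasSum (fun k => a k * z ^ k) (F z) := hsa.hasSum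
    have hs3 := hs1.sub hs2
    have hsn : Summable fun k => ‖cf (fn (φ n)) k - a k‖ * ρ ^ k :=
      Summable.of_nonneg_of_le (fun k => by positivity) (hbd n) hsum
    rw [dist_comm, dist_eq_norm]
    calc ‖fn (φ n) z - F z‖ = ‖∑' k, (cf (fn (φ n)) k * z ^ k - a k * z ^ k)‖ := by
          rw [hs3.tsum_eq]
      _ ≤ ∑' k, ‖cf (fn (φ n)) k - a k‖ * ρ ^ k := by
          apply tsum_of_norm_bounded hsn.hasSum
          intro k
          rw [← sub_mul, norm_mul, norm_pow]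
          gcongr
      _ < ε := hn
  have hloc : TendstoLocallyUniformlyOn (fun n => fn (φ n)) F atTop (ball 0 1) := by
    rw [tendstoLocallyUniformlyOn_iff_forall_isCompact isOpen_ball]
    intro K hKs hKc
    rcases K.eq_empty_or_nonempty with rfl | hne
    · exact tendstoUniformlyOn_empty
    · obtain ⟨z, hz, hmax⟩ := hKc.exists_isMaxOn hne continuous_norm.continuousOn
      have hz1 : ‖z‖ < 1 := mem_ball_zero_iff.1 (hKs hz)
      apply (hunif ‖z‖ hz1).mono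
      intro w hw
      rw [mem_closedBall_zero_iff]
      exact hmax hw
  have h0mem : (0 : ℂ) ∈ ball (0 : ℂ) 1 := by simp
  have hFd : DifferentiableOn ℂ F (ball 0 1) :=
    hloc.differentiableOn (Eventually.of_forall fun n => (hfn _).1) isOpen_ball
  have hpt : ∀ z ∈ ball (0 : ℂ) 1, Tendsto (fun n => fn (φ n) z) atTop (𝓝 (F z)) :=
    fun z hz => hloc.tendsto_at hz
  have hF0 : F 0 = 0 := by
    refine tendsto_nhds_unique (hpt 0 h0mem) ?_
    simp only [(hfn _).2.2.1]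
    exact tendsto_const_nhds
  have hFd0 : deriv F 0 = 1 := by
    have h := hloc.deriv (Eventually.of_forall fun n => (hfn _).1) isOpen_ball
    refine tendsto_nhds_unique (h.tendsto_at h0mem) ?_
    simp only [Function.comp_apply, (hfn _).2.2.2.1]
    exact tendsto_const_nhds
  have hnc : deriv F 0 ≠ 0 := by rw [hFd0]; exact one_ne_zero
  have hinj' : ∀ n, InjOn (fn (φ n)) (ball 0 1) := fun n => (hfn _).2.1
  have hkey := fun {z₀ : ℂ} (hz₀ : z₀ ∈ ball (0 : ℂ) 1) {δ : ℝ} (hδ : 0 < δ) =>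
    eventually_mem_image (fun n => (hfn (φ n)).1) hinj' hFd hunif hnc hz₀ hδ
  have hFinj : InjOn F (ball 0 1) := by
    intro z₁ hz₁ z₂ hz₂ heq
    by_contra hne
    have hd : 0 < dist z₁ z₂ / 2 := by
      have := dist_pos.2 hne
      positivity
    obtain ⟨n, ⟨u, hu, hu1, hfu⟩, ⟨v, hv, hv1, hfv⟩⟩ := ((hkey hz₁ hd).and (hkey hz₂ hd)).exists
    have huv : u = v := hinj' n hu1 hv1 (by rw [hfu, hfv, heq])
    rw [huv, mem_ball] at hu
    rw [mem_ball] at hv
    have := dist_triangle_left z₁ z₂ v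
    linarith
  have hconv : Convex ℝ (F '' ball 0 1) := by
    rintro _ ⟨z₁, hz₁, rfl⟩ _ ⟨z₂, hz₂, rfl⟩ s t hs ht hst
    rw [mem_ball_zero_iff] at hz₁ hz₂
    set ρ := max ‖z₁‖ ‖z₂‖ with hρ
    have hρ1 : ρ < 1 := max_lt hz₁ hz₂
    have hex : ∀ n, ∃ ζ : ℂ, ‖ζ‖ ≤ ρ ∧ fn (φ n) ζ = s * fn (φ n) z₁ + t * fn (φ n) z₂ :=
      fun n => study (hfn (φ n)) hρ1 (le_max_left _ _) (le_max_right _ _) hs ht hst
    choose ζ hζ hfζ using hex
    have hζmem : ∀ n, ζ n ∈ closedBall (0 : ℂ) ρ := fun n => mem_closedBall_zero_iff.2 (hζ n)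
    obtain ⟨ζ₀, hζ₀, ψ, hψ, hζlim⟩ := (isCompact_closedBall (0 : ℂ) ρ).tendsto_subseq hζmem
    have hζ₀1 : ζ₀ ∈ ball (0 : ℂ) 1 := closedBall_subset_ball hρ1 hζ₀
    refine ⟨ζ₀, hζ₀1, ?_⟩
    have hT1 : Tendsto (fun n => fn (φ (ψ n)) (ζ (ψ n))) atTop (𝓝 (F ζ₀)) := by
      have hu' : TendstoUniformlyOn (fun n => fn (φ (ψ n))) F atTop (closedBall 0 ρ) := by
        intro u hu
        exact hψ.tendsto_atTop.eventually (hunif ρ hρ1 u hu)
      have hFc : ContinuousWithinAt F (closedBall 0 ρ) ζ₀ :=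
        (hFd.continuousOn.mono (closedBall_subset_ball hρ1)) ζ₀ hζ₀
      have hζw : Tendsto (fun n => ζ (ψ n)) atTop (𝓝[closedBall 0 ρ] ζ₀) := by
        rw [tendsto_nhdsWithin_iff]
        exact ⟨hζlim, Eventually.of_forall fun n => hζmem _⟩
      exact hu'.tendsto_comp hFc hζw
    have hT2 : Tendsto (fun n => fn (φ (ψ n)) (ζ (ψ n))) atTop (𝓝 (s * F z₁ + t * F z₂)) := by
      have h1 := (hpt z₁ (mem_ball_zero_iff.2 hz₁)).comp hψ.tendsto_atTop
      have h2 := (hpt z₂ (mem_ball_zero_iff.2 hz₂)).comp hψ.tendsto_atTop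
      have h3 := (h1.const_mul (s : ℂ)).add (h2.const_mul (t : ℂ))
      refine h3.congr fun n => ?_
      simp only [Function.comp_apply]
      rw [hfζ]
    have := tendsto_nhds_unique hT1 hT2
    rw [this]
    simp
  refine ⟨F, ⟨hFd, hFinj, hF0, hFd0, hconv⟩, φ, hφ, ?_⟩
  rintro _ ⟨z, hz, rfl⟩
  filter_upwards [hkey hz one_pos] with n hn
  obtain ⟨z', -, hz', hfz'⟩ := hn
  exact ⟨z', hz', hfz'⟩

end Pool.Agent.H67.OmArc
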