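import Pool.Agent.H67.OmArc.Coverage

set_option autoImplicit false

/-!
# The competitor: an explicit rational convex function
(generated text: the polynomial inequalities are certified by Bernstein expansions)
-/

namespace Pool.Agent.H67.OmArc

open Complex Metric Set Filter Topology MeasureTheory

namespace Comp

/-- denominator -/
noncomputable def Dp (z : ℂ) : ℂ := 1 - (7/10)*z

/-- numerator -/
noncomputable def Bp (z : ℂ) : ℂ := 1*z + (-5663/10000)*z^2 + (313/10000)*z^3 + (129/10000)*z^4 + (-9/1250)*z^5 + (-11/2500)*z^6 + (37/10000)*z^7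

/-- numerator of the derivative -/
noncomputable def Ap (z : ℂ) : ℂ := 1 + (-5663/5000)*z + (49031/100000)*z^2 + (389/50000)*z^3 + (-6309/100000)*z^4 + (-39/6250)*z^5 + (413/10000)*z^6 + (-777/50000)*z^7

/-- derivative of the numerator -/
noncomputable def Bq (z : ℂ) : ℂ := 1 + (-5663/5000)*z + (939/10000)*z^2 + (129/2500)*z^3 + (-9/250)*z^4 + (-33/1250)*z^5 + (259/10000)*z^6

/-- derivative of `Ap` -/
noncomputable def Aq (z : ℂ) : ℂ := (-5663/5000) + (49031/50000)*z + (1167/50000)*z^2 + (-6309/25000)*z^3 + (-39/1250)*z^4 + (1239/5000)*z^5 + (-5439/50000)*z^6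

/-- the competitor -/
noncomputable def fc (z : ℂ) : ℂ := Bp z / Dp z

/-- its derivative -/
noncomputable def pc (z : ℂ) : ℂ := Ap z / Dp z ^ 2

/-- its second derivative -/
noncomputable def qc (z : ℂ) : ℂ := (Aq z * Dp z + 2 * (7/10) * Ap z) / Dp z ^ 3

/-- reduction coefficient -/
noncomputable def aB (x : ℝ) : ℝ := (4789/5000) + (-6053/5000)*x + (751/2500)*x^2 + (61/250)*x^3 + (-257/625)*x^4 + (-88/625)*x^5 + (148/625)*x^6

/-- reduction coefficient -/
noncomputable def bB (x : ℝ) : ℝ := (1459/2500) + (-71/625)*x + (-261/2500)*x^2 + (22/125)*x^3 + (44/625)*x^4 + (-74/625)*x^5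

/-- reduction coefficient -/
noncomputable def aA (x : ℝ) : ℝ := (-28277/25000) + (74039/50000)*x + (-3337/12500)*x^2 + (-22829/12500)*x^3 + (3573/3125)*x^4 + (826/625)*x^5 + (-3108/3125)*x^6

/-- reduction coefficient -/
noncomputable def bA (x : ℝ) : ℝ := (4053/10000) + (659/12500)*x + (18699/25000)*x^2 + (-1398/3125)*x^3 + (-413/625)*x^4 + (1554/3125)*x^5

/-- reduction coefficient -/
noncomputable def a2 (x : ℝ) : ℝ := (-13809/6250) + (296913/50000)*x + (-7531/3125)*x^2 + (-29437/2500)*x^3 + (29208/3125)*x^4 + (5782/625)*x^5 + (-24864/3125)*x^6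

/-- reduction coefficient -/
noncomputable def b2 (x : ℝ) : ℝ := (-26887/25000) + (3337/6250)*x + (4731/1000)*x^2 + (-11496/3125)*x^3 + (-2891/625)*x^4 + (12432/3125)*x^5

lemma sq_red {z : ℂ} (hz : ‖z‖ = 1) : z ^ 2 = 2 * (z.re : ℂ) * z - 1 := by
  have h1 : z * (starRingEnd ℂ) z = 1 := by
    rw [Complex.mul_conj, Complex.normSq_eq_norm_sq, hz]
    simp
  have h2 : z + (starRingEnd ℂ) z = 2 * (z.re : ℂ) := by
    rw [Complex.add_conj]
    push_cast
    ring
  linear_combination (-1 : ℂ) * h1 + z * h2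

lemma red3 {z : ℂ} (hz : ‖z‖ = 1) : z ^ 3 = ((-1) + 4*(z.re : ℂ)^2) * z - (2*(z.re : ℂ)) := by
  linear_combination z * (sq_red hz) + (2*(z.re : ℂ)) * (sq_red hz)

lemma red4 {z : ℂ} (hz : ‖z‖ = 1) : z ^ 4 = ((-4)*(z.re : ℂ) + 8*(z.re : ℂ)^3) * z - ((-1) + 4*(z.re : ℂ)^2) := by
  linear_combination z * (red3 hz) + ((-1) + 4*(z.re : ℂ)^2) * (sq_red hz)

lemma red5 {z : ℂ} (hz : ‖z‖ = 1) : z ^ 5 = (1 + (-12)*(z.re : ℂ)^2 + 16*(z.re : ℂ)^4) * z - ((-4)*(z.re : ℂ) + 8*(z.re : ℂ)^3) := by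
  linear_combination z * (red4 hz) + ((-4)*(z.re : ℂ) + 8*(z.re : ℂ)^3) * (sq_red hz)

lemma red6 {z : ℂ} (hz : ‖z‖ = 1) : z ^ 6 = (6*(z.re : ℂ) + (-32)*(z.re : ℂ)^3 + 32*(z.re : ℂ)^5) * z - (1 + (-12)*(z.re : ℂ)^2 + 16*(z.re : ℂ)^4) := by
  linear_combination z * (red5 hz) + (1 + (-12)*(z.re : ℂ)^2 + 16*(z.re : ℂ)^4) * (sq_red hz)

lemma red7 {z : ℂ} (hz : ‖z‖ = 1) : z ^ 7 = ((-1) + 24*(z.re : ℂ)^2 + (-80)*(z.re : ℂ)^4 + 64*(z.re : ℂ)^6) * z - (6*(z.re : ℂ) + (-32)*(z.re : ℂ)^3 + 32*(z.re : ℂ)^5) := by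
  linear_combination z * (red6 hz) + (6*(z.re : ℂ) + (-32)*(z.re : ℂ)^3 + 32*(z.re : ℂ)^5) * (sq_red hz)

lemma B_red {z : ℂ} (hz : ‖z‖ = 1) : Bp z = ((aB z.re : ℝ) : ℂ) * z + ((bB z.re : ℝ) : ℂ) := by
  unfold Bp aB bB
  push_cast
  linear_combination (-5663/10000) * (sq_red hz) + (313/10000) * (red3 hz) + (129/10000) * (red4 hz) + (-9/1250) * (red5 hz) + (-11/2500) * (red6 hz) + (37/10000) * (red7 hz)

lemma A_red {z : ℂ} (hz : ‖z‖ = 1) : Ap z = ((aA z.re : ℝ) : ℂ) * z + ((bA z.re : ℝ) : ℂ) := by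
  unfold Ap aA bA
  push_cast
  linear_combination (49031/100000) * (sq_red hz) + (389/50000) * (red3 hz) + (-6309/100000) * (red4 hz) + (-39/6250) * (red5 hz) + (413/10000) * (red6 hz) + (-777/50000) * (red7 hz)

lemma A2_red {z : ℂ} (hz : ‖z‖ = 1) : Ap z + z * Aq z = ((a2 z.re : ℝ) : ℂ) * z + ((b2 z.re : ℝ) : ℂ) := by
  unfold Ap Aq a2 b2
  push_cast
  linear_combination (147093/100000) * (sq_red hz) + (389/12500) * (red3 hz) + (-6309/20000) * (red4 hz) + (-117/3125) * (red5 hz) + (2891/10000) * (red6 hz) + (-777/6250) * (red7 hz)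

lemma D_red (z : ℂ) : Dp z = ((-(7/10) : ℝ) : ℂ) * z + ((1 : ℝ) : ℂ) := by
  unfold Dp
  push_cast
  ring

lemma D2_red {z : ℂ} (hz : ‖z‖ = 1) :
    Dp z ^ 2 = (((49/50) * z.re - 7/5 : ℝ) : ℂ) * z + ((51/100 : ℝ) : ℂ) := by
  unfold Dp
  push_cast
  linear_combination (49/100) * (sq_red hz)

lemma re_sq_add_im_sq {z : ℂ} (hz : ‖z‖ = 1) : z.re ^ 2 + z.im ^ 2 = 1 := by
  have : Complex.normSq z = 1 := by rw [Complex.normSq_eq_norm_sq, hz]; norm_num
  rw [Complex.normSq_apply] at this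
  linarith

lemma re_lin (a b a' b' : ℝ) {z : ℂ} (hz : ‖z‖ = 1) :
    (((a : ℂ) * z + b) * (starRingEnd ℂ) ((a' : ℂ) * z + b')).re =
      a * a' + (a * b' + a' * b) * z.re + b * b' := by
  have h := re_sq_add_im_sq hz
  simp only [map_add, map_mul, Complex.conj_ofReal, Complex.mul_re, Complex.mul_im,
    Complex.add_re, Complex.add_im, Complex.ofReal_re, Complex.ofReal_im, Complex.conj_re,
    Complex.conj_im]
  linear_combination (a * a') * h

lemma im_lin (a b a' b' : ℝ) (z : ℂ) :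
    (((a : ℂ) * z + b) * (starRingEnd ℂ) ((a' : ℂ) * z + b')).im =
      (a * b' - a' * b) * z.im := by
  simp only [map_add, map_mul, Complex.conj_ofReal, Complex.mul_re, Complex.mul_im,
    Complex.add_re, Complex.add_im, Complex.ofReal_re, Complex.ofReal_im, Complex.conj_re,
    Complex.conj_im]
  ring

lemma normSq_lin (a b : ℝ) {z : ℂ} (hz : ‖z‖ = 1) :
    Complex.normSq ((a : ℂ) * z + b) = a ^ 2 + 2 * a * b * z.re + b ^ 2 := by
  have h := re_lin a b a b hz
  rw [Complex.mul_conj, Complex.ofReal_re] at h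
  rw [h]; ring

lemma re_bounds {z : ℂ} (hz : ‖z‖ = 1) : (-1) ≤ z.re ∧ z.re ≤ 1 := by
  have h := Complex.abs_re_le_norm z
  rw [hz] at h
  exact abs_le.1 h

lemma D_ne {z : ℂ} (hz : z ∈ closedBall (0 : ℂ) 1) : Dp z ≠ 0 := by
  intro h
  rw [mem_closedBall_zero_iff] at hz
  unfold Dp at h
  have h1 : (7/10 : ℂ) * z = 1 := by linear_combination -h
  have h2 : ‖(7/10 : ℂ) * z‖ = 1 := by rw [h1]; simp
  rw [norm_mul] at h2
  have h3 : ‖(7/10 : ℂ)‖ = 7/10 := by norm_num
  rw [h3] at h2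
  linarith

lemma normSq_D {z : ℂ} (hz : ‖z‖ = 1) : Complex.normSq (Dp z) = 149/100 - (7/5) * z.re := by
  rw [D_red, normSq_lin _ _ hz]
  ring

lemma normSq_D_pos {z : ℂ} (hz : ‖z‖ = 1) : 0 < Complex.normSq (Dp z) := by
  rw [normSq_D hz]
  have := (re_bounds hz).2
  linarith

lemma polyReF {x : ℝ} (h1 : (-1) ≤ x) (h2 : x ≤ 1) : 0 ≤ (354043/200000) + (-2149467/500000)*x + (16424759/5000000)*x^2 + (1169307/1250000)*x^3 + (-412453/125000)*x^4 + (185527/312500)*x^5 + (31528/15625)*x^6 + (-3108/3125)*x^7 := by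
  have key : ∀ u w : ℝ, 0 ≤ u → 0 ≤ w → 0 ≤ (9422121/160000000)*w^7 + (7708847/32000000)*u*w^6 + (20360513/20000000)*u^2*w^5 + (7542443/80000000)*u^3*w^4 + (48777449/160000000)*u^4*w^3 + (8412063/160000000)*u^5*w^2 + (49163/80000000)*u^6*w + (701/10000000)*u^7 := by
    intro u w hu hw; positivity
  have := key (x - (-1)) (1 - x) (by linarith) (by linarith)
  refine this.trans_eq ?_
  ring


lemma polyK {x : ℝ} (h1 : (-1) ≤ x) (h2 : x ≤ 1) : 0 ≤ (25927696219/15625000000) + (-1361800718433/125000000000)*x + (2860347414801/125000000000)*x^2 + (-1430187341/244140625)*x^3 + (-1158667914441/31250000000)*x^4 + (1106848490559/31250000000)*x^5 + (20256220369/1562500000)*x^6 + (-281222739/9765625)*x^7 + (152292/15625)*x^8 := by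
  rcases le_total x (1/2) with h | h
  · rcases le_total x 0 with h | h
    · have key : ∀ u w : ℝ, 0 ≤ u → 0 ≤ w → 0 ≤ (1269122345149/62500000000)*w^8 + (7035119469289/125000000000)*u*w^7 + (5645459405539/15625000000)*u^2*w^6 + (20168411987983/25000000000)*u^3*w^5 + (52057177092503/62500000000)*u^4*w^4 + (58107763400603/125000000000)*u^5*w^3 + (2275094549611/15625000000)*u^6*w^2 + (3021173276449/125000000000)*u^7*w + (25927696219/15625000000)*u^8 := by
        intro u w hu hw; positivity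
      have := key (x - (-1)) (0 - x) (by linarith) (by linarith)
      refine this.trans_eq ?_
      ring
    · have key : ∀ u w : ℝ, 0 ≤ u → 0 ≤ w → 0 ≤ (103710784876/244140625)*w^8 + (1956944397599/976562500)*u*w^7 + (7026353168963/1953125000)*u^2*w^6 + (1515689494943/488281250)*u^3*w^5 + (333486593918/244140625)*u^4*w^4 + (1201605249427/3906250000)*u^5*w^3 + (178127236261/3906250000)*u^6*w^2 + (7759620997/781250000)*u^7*w + (5778269461/3906250000)*u^8 := by
        intro u w hu hw; positivity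
      have := key (x - 0) ((1/2) - x) (by linarith) (by linarith)
      refine this.trans_eq ?_
      ring
  · rcases le_total x (3/4) with h | h
    · have key : ∀ u w : ℝ, 0 ≤ u → 0 ≤ w → 0 ≤ (92452311376/244140625)*w^8 + (799042896632/244140625)*u*w^7 + (3277963742992/244140625)*u^2*w^6 + (6817173172276/244140625)*u^3*w^5 + (7457462289563/244140625)*u^4*w^4 + (1717241679607/97656250)*u^5*w^3 + (1251490264621/244140625)*u^6*w^2 + (76681051079/97656250)*u^7*w + (24033849571/244140625)*u^8 := by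
        intro u w hu hw; positivity
      have := key (x - (1/2)) ((3/4) - x) (by linarith) (by linarith)
      refine this.trans_eq ?_
      ring
    · have key : ∀ u w : ℝ, 0 ≤ u → 0 ≤ w → 0 ≤ (24033849571/244140625)*w^8 + (385677930877/488281250)*u*w^7 + (1259444628808/244140625)*u^2*w^6 + (2155569143061/97656250)*u^3*w^5 + (12857011940868/244140625)*u^4*w^4 + (3414397288704/48828125)*u^5*w^3 + (20012543784/390625)*u^6*w^2 + (4711206912096/244140625)*u^7*w + (143800891392/48828125)*u^8 := by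
        intro u w hu hw; positivity
      have := key (x - (3/4)) (1 - x) (by linarith) (by linarith)
      refine this.trans_eq ?_
      ring


lemma polyP1 {x : ℝ} (h1 : (-1) ≤ x) (h2 : x ≤ (11/20)) : 0 ≤ (200633/3125000) + (1142069/12500000)*x + (-1507117/5000000)*x^2 + (-617049/1562500)*x^3 + (2679247/6250000)*x^4 + (649531/3125000)*x^5 + (-148/625)*x^6 := by
  rcases le_total x (-49/80) with h | h
  · have key : ∀ u w : ℝ, 0 ≤ u → 0 ≤ w → 0 ≤ (66000781312/4437518405)*w^6 + (13135589605376/110937960125)*u*w^5 + (30225410911232/110937960125)*u^2*w^4 + (787913896211456/2773449003125)*u^3*w^3 + (2090928554182672/13867245015625)*u^4*w^2 + (2809544238283882/69336225078125)*u^5*w + (323929530398422/69336225078125)*u^6 := by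
      intro u w hu hw; positivity
    have := key (x - (-1)) ((-49/80) - x) (by linarith) (by linarith)
    refine this.trans_eq ?_
    ring
  · rcases le_total x (-9/40) with h | h
    · have key : ∀ u w : ℝ, 0 ≤ u → 0 ≤ w → 0 ≤ (323929530398422/69336225078125)*w^6 + (1077610126497182/69336225078125)*u*w^5 + (358994442395972/13867245015625)*u^2*w^4 + (677250018882544/13867245015625)*u^3*w^3 + (918954424526592/13867245015625)*u^4*w^2 + (2959114354297184/69336225078125)*u^5*w + (692881892097344/69336225078125)*u^6 := by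
        intro u w hu hw; positivity
      have := key (x - (-49/80)) ((-9/40) - x) (by linarith) (by linarith)
      refine this.trans_eq ?_
      ring
    · have key : ∀ u w : ℝ, 0 ≤ u → 0 ≤ w → 0 ≤ (10826279564021/69336225078125)*w^6 + (102400708580591/69336225078125)*u*w^5 + (72327229046118/13867245015625)*u^2*w^4 + (109295934656728/13867245015625)*u^3*w^3 + (66593983313984/13867245015625)*u^4*w^2 + (73195571619632/69336225078125)*u^5*w + (224794020832/69336225078125)*u^6 := by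
        intro u w hu hw; positivity
      have := key (x - (-9/40)) ((11/20) - x) (by linarith) (by linarith)
      refine this.trans_eq ?_
      ring


lemma polyP3 {x : ℝ} (h1 : (11/20) ≤ x) (h2 : x ≤ 1) : 0 ≤ (-445159449/9765625) + (1751194341/31250000)*x + (164232101523/625000000)*x^2 + (-200714577447/312500000)*x^3 + (83312912183/156250000)*x^4 + (9233005341/312500000)*x^5 + (-267308843927/625000000)*x^6 + (15653064249/78125000)*x^7 + (295791067/1562500)*x^8 + (-8676454761/39062500)*x^9 + (64611742/1953125)*x^10 + (729058902/9765625)*x^11 + (-292856551/9765625)*x^12 + (-34966776/1953125)*x^13 + (3701776/390625)*x^14 := by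
  have key : ∀ u w : ℝ, 0 ≤ u → 0 ≤ w → 0 ≤ (5412644184138803692544/992916339191015625)*w^14 + (1661214259623858293678336/992916339191015625)*u*w^13 + (6528921532121445521075632/330972113063671875)*u^2*w^12 + (4292487117447359279540096/39716653567640625)*u^3*w^11 + (14302017520910364596013824/39716653567640625)*u^4*w^10 + (715992779016002089648384/882592301503125)*u^5*w^9 + (689373545192155355656192/529555380901875)*u^6*w^8 + (161767882644140599937024/105911076180375)*u^7*w^7 + (9344428146550140224512/7060738412025)*u^8*w^6 + (10734134143748615766016/12709329141645)*u^9*w^5 + (993866672597450571776/2541865828329)*u^10*w^4 + (107853926385978572800/847288609443)*u^11*w^3 + (69997377256816640000/2541865828329)*u^12*w^2 + (9008560052633600000/2541865828329)*u^13*w + (57907609600000000/282429536481)*u^14 := by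
    intro u w hu hw; positivity
  have := key (x - (11/20)) (1 - x) (by linarith) (by linarith)
  refine this.trans_eq ?_
  ring


lemma polyV {x : ℝ} (h1 : (11/20) ≤ x) (h2 : x ≤ 1) : 0 ≤ (-4343/50000) + (12831/10000)*x + (-4518/3125)*x^2 + (9467/25000)*x^3 + (1497/3125)*x^4 + (-1501/3125)*x^5 + (-699/3125)*x^6 + (148/625)*x^7 := by
  have key : ∀ u w : ℝ, 0 ≤ u → 0 ≤ w → 0 ≤ (69754774624/996451875)*w^7 + (501938756428/996451875)*u*w^6 + (20042463472/13286025)*u^2*w^5 + (97124267456/39858075)*u^3*w^4 + (18181693024/7971615)*u^4*w^3 + (649876096/531441)*u^5*w^2 + (544441600/1594323)*u^6*w + (60160000/1594323)*u^7 := by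
    intro u w hu hw; positivity
  have := key (x - (11/20)) (1 - x) (by linarith) (by linarith)
  refine this.trans_eq ?_
  ring


lemma hasDerivAt_D (z : ℂ) : HasDerivAt Dp (-(7/10)) z := by
  unfold Dp
  have := ((hasDerivAt_id z).const_mul (7/10 : ℂ)).const_sub 1
  simpa using this

lemma hasDerivAt_Bp (z : ℂ) : HasDerivAt Bp (Bq z) z := by
  unfold Bp
  have h := ((((((((hasDerivAt_id' z).const_mul (1 : ℂ)).add ((hasDerivAt_pow 2 z).const_mul ((-5663/10000) : ℂ))).add ((hasDerivAt_pow 3 z).const_mul ((313/10000) : ℂ))).add ((hasDerivAt_pow 4 z).const_mul ((129/10000) : ℂ))).add ((hasDerivAt_pow 5 z).const_mul ((-9/1250) : ℂ))).add ((hasDerivAt_pow 6 z).const_mul ((-11/2500) : ℂ))).add ((hasDerivAt_pow 7 z).const_mul ((37/10000) : ℂ)))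
  refine h.congr_deriv ?_
  unfold Bq
  push_cast
  ring

lemma hasDerivAt_Ap (z : ℂ) : HasDerivAt Ap (Aq z) z := by
  unfold Ap
  have h := ((((((((hasDerivAt_const z (1 : ℂ)).add ((hasDerivAt_id' z).const_mul ((-5663/5000) : ℂ))).add ((hasDerivAt_pow 2 z).const_mul ((49031/100000) : ℂ))).add ((hasDerivAt_pow 3 z).const_mul ((389/50000) : ℂ))).add ((hasDerivAt_pow 4 z).const_mul ((-6309/100000) : ℂ))).add ((hasDerivAt_pow 5 z).const_mul ((-39/6250) : ℂ))).add ((hasDerivAt_pow 6 z).const_mul ((413/10000) : ℂ))).add ((hasDerivAt_pow 7 z).const_mul ((-777/50000) : ℂ)))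
  refine h.congr_deriv ?_
  unfold Aq
  push_cast
  ring

lemma hasDerivAt_fc {z : ℂ} (hz : z ∈ closedBall (0 : ℂ) 1) : HasDerivAt fc (pc z) z := by
  have h := (hasDerivAt_Bp z).div (hasDerivAt_D z) (D_ne hz)
  refine h.congr_deriv ?_
  unfold pc
  congr 1
  unfold Bp Bq Ap Dp
  ring

lemma hasDerivAt_pc {z : ℂ} (hz : z ∈ closedBall (0 : ℂ) 1) : HasDerivAt pc (qc z) z := by
  have hne := D_ne hz
  have h := (hasDerivAt_Ap z).div ((hasDerivAt_D z).pow 2) (pow_ne_zero 2 hne)
  refine h.congr_deriv ?_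
  unfold qc
  simp only [Pi.pow_apply]
  field_simp
  ring

lemma conj_ne {z : ℂ} (hz : z ∈ closedBall (0 : ℂ) 1) : (starRingEnd ℂ) (Dp z) ≠ 0 := by
  rw [Ne, map_eq_zero]
  exact D_ne hz

lemma pc_eq {z : ℂ} (hz : z ∈ closedBall (0 : ℂ) 1) :
    pc z = (Ap z * (starRingEnd ℂ) (Dp z ^ 2)) / ((Complex.normSq (Dp z) ^ 2 : ℝ) : ℂ) := by
  have hne := D_ne hz
  have hcne := conj_ne hz
  unfold pc
  push_cast
  rw [← Complex.mul_conj, map_pow]
  field_simp

lemma re_pc {z : ℂ} (hz : z ∈ sphere (0 : ℂ) 1) : 1 / 500 ≤ (pc z).re := by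
  have hz1 : ‖z‖ = 1 := mem_sphere_zero_iff_norm.1 hz
  have hzc := sphere_subset_closedBall hz
  rw [pc_eq hzc, Complex.div_ofReal_re, A_red hz1, D2_red hz1, re_lin _ _ _ _ hz1]
  have hpos := normSq_D_pos hz1
  obtain ⟨hx1, hx2⟩ := re_bounds hz1
  rw [le_div_iff₀ (by positivity), normSq_D hz1]
  have h1 := polyReF hx1 hx2
  have h2 : (149/100 - (7/5) * z.re) ^ 2 ≤ 10 := by nlinarith
  have h3 : 1 / 50 ≤ aA z.re * (49 / 50 * z.re - 7 / 5) +
      (aA z.re * (51 / 100) + (49 / 50 * z.re - 7 / 5) * bA z.re) * z.re + bA z.re * (51 / 100) := by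
    unfold aA bA
    linarith
  linarith

lemma re_pc_pos {z : ℂ} (hz : z ∈ closedBall (0 : ℂ) 1) : 0 < (pc z).re := by
  have hd : DiffContOnCl ℂ (fun z => Complex.exp (-pc z)) (ball 0 1) := by
    apply DifferentiableOn.diffContOnCl
    rw [closure_ball _ one_ne_zero]
    intro z hz
    exact ((hasDerivAt_pc hz).differentiableAt.neg.cexp).differentiableWithinAt
  have hb : ∀ z ∈ frontier (ball (0 : ℂ) 1), ‖Complex.exp (-pc z)‖ ≤ Real.exp (-(1/500)) := by
    rw [frontier_ball _ one_ne_zero]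
    intro z hz
    rw [Complex.norm_exp, Real.exp_le_exp, Complex.neg_re]
    have := re_pc hz
    linarith
  have hcl : z ∈ closure (ball (0 : ℂ) 1) := by
    rwa [closure_ball _ one_ne_zero]
  have := Complex.norm_le_of_forall_mem_frontier_norm_le isBounded_ball hd hb hcl
  rw [Complex.norm_exp, Real.exp_le_exp, Complex.neg_re] at this
  linarith

lemma K_nonneg {z : ℂ} (hz : z ∈ sphere (0 : ℂ) 1) :
    0 ≤ ((pc z + z * qc z) * (starRingEnd ℂ) (pc z)).re := by
  have hz1 : ‖z‖ = 1 := mem_sphere_zero_iff_norm.1 hz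
  have hzc := sphere_subset_closedBall hz
  have hne := D_ne hzc
  have hcne := conj_ne hzc
  have hpos := normSq_D_pos hz1
  have e1 : (pc z + z * qc z) * (starRingEnd ℂ) (pc z) =
      (((Ap z + z * Aq z) * (starRingEnd ℂ) (Ap z)) * ((Complex.normSq (Dp z) : ℝ) : ℂ) +
        ((7/5 : ℝ) : ℂ) * (z * (starRingEnd ℂ) (Dp z)) * ((Complex.normSq (Ap z) : ℝ) : ℂ)) /
        ((Complex.normSq (Dp z) ^ 3 : ℝ) : ℂ) := by
    unfold pc qc
    push_cast
    rw [← Complex.mul_conj (Dp z), ← Complex.mul_conj (Ap z), map_div₀, map_pow]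
    field_simp
    ring
  have e2 : z * (starRingEnd ℂ) (Dp z) =
      (((1 : ℝ) : ℂ) * z + ((0 : ℝ) : ℂ)) *
        (starRingEnd ℂ) (((-(7/10) : ℝ) : ℂ) * z + ((1 : ℝ) : ℂ)) := by
    rw [D_red]; push_cast; ring
  rw [e1, Complex.div_ofReal_re]
  apply div_nonneg _ (by positivity)
  rw [Complex.add_re, Complex.re_mul_ofReal, Complex.re_mul_ofReal, mul_comm (((7/5 : ℝ) : ℂ)),
    Complex.re_mul_ofReal, e2, re_lin _ _ _ _ hz1, A2_red hz1, A_red hz1, re_lin _ _ _ _ hz1,
    normSq_lin _ _ hz1, normSq_D hz1]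
  obtain ⟨hx1, hx2⟩ := re_bounds hz1
  refine (polyK hx1 hx2).trans_eq ?_
  unfold a2 b2 aA bA
  ring

theorem crit : Crit fc pc qc where
  hf := fun _ hz => hasDerivAt_fc hz
  hp := fun _ hz => hasDerivAt_pc hz
  hre := fun _ hz => re_pc_pos hz
  hK := fun _ hz => K_nonneg hz

lemma norm_fc_le : ∀ ζ ∈ sphere (0 : ℂ) 1, ζ.re ≤ 11/20 → ‖fc ζ‖ ≤ 471/500 := by
  intro z hz hx
  have hz1 : ‖z‖ = 1 := mem_sphere_zero_iff_norm.1 hz
  have hzc := sphere_subset_closedBall hz
  have hne := D_ne hzc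
  unfold fc
  rw [norm_div, div_le_iff₀ (norm_pos_iff.2 hne)]
  apply le_of_sq_le_sq _ (by positivity)
  rw [mul_pow, ← Complex.normSq_eq_norm_sq, ← Complex.normSq_eq_norm_sq, normSq_D hz1,
    B_red hz1, normSq_lin _ _ hz1]
  have h := polyP1 (re_bounds hz1).1 (by linarith : z.re ≤ (11/20))
  unfold aB bB
  linarith

lemma arg_fc_le : ∀ ζ ∈ sphere (0 : ℂ) 1, 11/20 < ζ.re → 5 * |(fc ζ).im| ≤ 12 * (fc ζ).re := by
  intro z hz hx
  have hz1 : ‖z‖ = 1 := mem_sphere_zero_iff_norm.1 hz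
  have hzc := sphere_subset_closedBall hz
  have hne := D_ne hzc
  have hcne := conj_ne hzc
  have hpos := normSq_D_pos hz1
  have e1 : fc z = (Bp z * (starRingEnd ℂ) (Dp z)) / ((Complex.normSq (Dp z) : ℝ) : ℂ) := by
    unfold fc
    rw [← Complex.mul_conj]
    field_simp
  rw [D_red] at hpos
  rw [e1, Complex.div_ofReal_re, Complex.div_ofReal_im, B_red hz1, D_red, re_lin _ _ _ _ hz1,
    im_lin, abs_div, abs_of_pos hpos, ← mul_div_assoc, ← mul_div_assoc]
  apply div_le_div_of_nonneg_right _ hpos.le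
  have hV := polyV (by linarith : (11/20) ≤ z.re) (re_bounds hz1).2
  have h3 := polyP3 (by linarith : (11/20) ≤ z.re) (re_bounds hz1).2
  have hy : z.im ^ 2 = 1 - z.re ^ 2 := by
    have := re_sq_add_im_sq hz1
    linarith
  set V : ℝ := aB z.re * (-(7/10)) + (aB z.re * 1 + (-(7/10)) * bB z.re) * z.re + bB z.re * 1
    with hVdef
  set W : ℝ := (aB z.re * 1 - (-(7/10)) * bB z.re) with hWdef
  have hV' : 0 ≤ V := by
    rw [hVdef]
    refine hV.trans_eq ?_
    unfold aB bB
    ring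
  have h4 : (5 * (W * z.im)) ^ 2 ≤ (12 * V) ^ 2 := by
    have e : (5 * (W * z.im)) ^ 2 = 25 * W ^ 2 * (1 - z.re ^ 2) := by
      rw [← hy]; ring
    rw [e, ← sub_nonneg]
    refine h3.trans_eq ?_
    rw [hVdef, hWdef]
    unfold aB bB
    ring
  have h5 := abs_le_of_sq_le_sq h4 (by positivity)
  rw [abs_mul, abs_of_pos (by norm_num : (0 : ℝ) < 5)] at h5
  exact h5

theorem fc_mem : fc ∈ Sc := by
  apply crit.mem_Sc
  · simp [fc, Bp]
  · simp [pc, Ap, Dp]

theorem cov_fc : cov (img fc) (471/500) ≤ ENNReal.ofReal (2 * phi0) :=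
  crit.cov_le (by norm_num) norm_fc_le arg_fc_le

end Comp

end Pool.Agent.H67.OmArc
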