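import Pool.Agent.H67.OmArc.Criterion

set_option autoImplicit false

/-!
# Bounding the covered angles
-/

namespace Pool.Agent.H67.OmArc

open Complex Metric Set Filter Topology MeasureTheory

/-- the half-angle with cosine `5/13` and sine `12/13` -/
noncomputable def phi0 : ℝ := Real.arccos (5 / 13)

lemma cos_phi0 : Real.cos phi0 = 5 / 13 := Real.cos_arccos (by norm_num) (by norm_num)

lemma sin_phi0 : Real.sin phi0 = 12 / 13 := by
  unfold phi0
  rw [Real.sin_arccos]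
  rw [show (1 : ℝ) - (5 / 13) ^ 2 = (12 / 13) ^ 2 by norm_num]
  exact Real.sqrt_sq (by norm_num)

lemma phi0_pos : 0 < phi0 := by
  unfold phi0
  rw [Real.arccos_pos]
  norm_num

lemma phi0_lt : phi0 < Real.pi / 2 := by
  unfold phi0
  rw [Real.arccos_lt_pi_div_two]
  norm_num

lemma abs_le_phi0 {θ : ℝ} (h1 : -Real.pi < θ) (h2 : θ ≤ Real.pi)
    (h : |Real.sin θ| * (5 / 13) ≤ Real.cos θ * (12 / 13)) : |θ| ≤ phi0 := by
  have hp := phi0_pos
  have hp2 := phi0_lt
  have habs : |θ| ≤ Real.pi := abs_le.2 ⟨h1.le, h2⟩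
  have hsin : |Real.sin θ| = Real.sin |θ| := by
    rw [Real.abs_sin_eq_sin_abs_of_abs_le_pi habs]
  have hcos : Real.cos θ = Real.cos |θ| := (Real.cos_abs θ).symm
  rw [hsin, hcos] at h
  by_contra hlt
  push Not at hlt
  have hpos : 0 < Real.sin (|θ| - phi0) := by
    apply Real.sin_pos_of_pos_of_lt_pi <;> linarith
  rw [Real.sin_sub, cos_phi0, sin_phi0] at hpos
  linarith

/-- A bound for the set of covered angles. -/
lemma Crit.covSet_subset {f p q : ℂ → ℂ} (h : Crit f p q) {r xs : ℝ} (hr : 0 < r)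
    (H1 : ∀ ζ ∈ sphere (0 : ℂ) 1, ζ.re ≤ xs → ‖f ζ‖ ≤ r)
    (H2 : ∀ ζ ∈ sphere (0 : ℂ) 1, xs < ζ.re → 5 * |(f ζ).im| ≤ 12 * (f ζ).re) :
    covSet (img f) r ⊆ Icc (-phi0) phi0 := by
  rintro θ ⟨⟨h1, h2⟩, hθ⟩
  rw [mem_Icc, ← abs_le]
  apply abs_le_phi0 h1 h2
  set w : ℂ := (r : ℂ) * Complex.exp (θ * Complex.I) with hw
  have hwn : ‖w‖ = r := norm_circle hr.le θ
  have hopen : IsOpen (img f) := h.isOpen_img
  -- the image is bounded
  have hcomp : IsCompact (f '' closedBall 0 1) :=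
    (isCompact_closedBall (0 : ℂ) 1).image_of_continuousOn
      (fun z hz => (h.hf z hz).continuousAt.continuousWithinAt)
  obtain ⟨R, hR⟩ := hcomp.isBounded.exists_norm_le
  have hbd : ∀ v ∈ img f, ‖v‖ ≤ R := fun v hv => hR v (image_mono ball_subset_closedBall hv)
  have hR0 : 0 < R := by
    have := hbd w hθ
    rw [hwn] at this
    linarith
  set t : ℝ := (R + 1) / r with ht
  have htpos : 0 < t := by positivity
  have hnot : (t : ℂ) * w ∉ img f := by
    intro hmem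
    have := hbd _ hmem
    rw [norm_mul, hwn, Complex.norm_real, Real.norm_of_nonneg htpos.le, ht,
      div_mul_cancel₀ _ hr.ne'] at this
    linarith
  obtain ⟨x, hx, hxf⟩ := segment_hits_frontier hopen hθ hnot
  have ht1 : 1 < t := by
    rw [ht, lt_div_iff₀ hr]
    have := hbd w hθ
    rw [hwn] at this
    linarith
  obtain ⟨a, b, ha, hb, hab, hxe⟩ := hx
  set s : ℝ := a + b * t with hs
  have hxs : x = (s : ℂ) * w := by
    rw [← hxe, hs]
    simp only [Complex.real_smul]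
    push_cast
    ring
  have hs1 : 1 ≤ s := by
    rw [hs]
    nlinarith
  have hs1' : 1 < s := by
    rcases hs1.eq_or_lt with h' | h'
    · exfalso
      rw [← h', Complex.ofReal_one, one_mul] at hxs
      rw [hxs, frontier, hopen.interior_eq] at hxf
      exact hxf.2 hθ
    · exact h'
  obtain ⟨ζ, hζ, hfζ⟩ := h.frontier_subset hxf
  have hnorm : ‖f ζ‖ = s * r := by
    rw [hfζ, hxs, norm_mul, hwn, Complex.norm_real, Real.norm_of_nonneg (by linarith)]
  have hre : xs < ζ.re := by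
    by_contra hle
    push Not at hle
    have := H1 ζ hζ hle
    rw [hnorm] at this
    nlinarith
  have h5 := H2 ζ hζ hre
  have hwre : w.re = r * Real.cos θ := by
    rw [hw, Complex.re_ofReal_mul, Complex.exp_ofReal_mul_I_re]
  have hwim : w.im = r * Real.sin θ := by
    rw [hw, Complex.im_ofReal_mul, Complex.exp_ofReal_mul_I_im]
  rw [hfζ, hxs, Complex.re_ofReal_mul, Complex.im_ofReal_mul, hwre, hwim, abs_mul, abs_mul,
    abs_of_pos (by linarith : 0 < s), abs_of_pos hr] at h5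
  have hsr : 0 < s * r := by positivity
  have h6 : (s * r) * (5 * |Real.sin θ|) ≤ (s * r) * (12 * Real.cos θ) := by nlinarith
  have h7 := le_of_mul_le_mul_left h6 hsr
  linarith

lemma Crit.cov_le {f p q : ℂ → ℂ} (h : Crit f p q) {r xs : ℝ} (hr : 0 < r)
    (H1 : ∀ ζ ∈ sphere (0 : ℂ) 1, ζ.re ≤ xs → ‖f ζ‖ ≤ r)
    (H2 : ∀ ζ ∈ sphere (0 : ℂ) 1, xs < ζ.re → 5 * |(f ζ).im| ≤ 12 * (f ζ).re) :
    cov (img f) r ≤ ENNReal.ofReal (2 * phi0) := by
  calc cov (img f) r ≤ volume (Icc (-phi0) phi0) := measure_mono (h.covSet_subset hr H1 H2)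
    _ = ENNReal.ofReal (2 * phi0) := by rw [Real.volume_Icc]; congr 1; ring

lemma Crit.mem_Sc {f p q : ℂ → ℂ} (h : Crit f p q) (h0 : f 0 = 0) (h1 : p 0 = 1) : f ∈ Sc := by
  refine ⟨h.diffContOnCl.differentiableOn, h.injOn.mono ball_subset_closedBall, h0, ?_,
    h.convex_img⟩
  rw [(h.hf 0 (by simp)).deriv, h1]

end Pool.Agent.H67.OmArc
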