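import Pool.Agent.H67.OmArc.Extremal

set_option autoImplicit false

/-!
# An analytic criterion for convexity of `f(Δ)`
-/

namespace Pool.Agent.H67.OmArc

open Complex Metric Set Filter Topology

lemma segment_hits_frontier {D : Set ℂ} (hD : IsOpen D) {a b : ℂ} (ha : a ∈ D) (hb : b ∉ D) :
    ∃ x ∈ segment ℝ a b, x ∈ frontier D := by
  by_contra hcon
  push Not at hcon
  have hconn : IsPreconnected (segment ℝ a b) := (convex_segment a b).isPreconnected
  have hsub : segment ℝ a b ⊆ D ∪ (closure D)ᶜ := by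
    intro x hx
    by_cases hxD : x ∈ D
    · exact Or.inl hxD
    · right
      intro hcl
      apply hcon x hx
      rw [frontier, hD.interior_eq]
      exact ⟨hcl, hxD⟩
  have hdis : Disjoint D (closure D)ᶜ := by
    rw [Set.disjoint_compl_right_iff_subset]
    exact subset_closure
  have := hconn.subset_left_of_subset_union hD isClosed_closure.isOpen_compl hdis hsub
    ⟨a, left_mem_segment ℝ a b, ha⟩
  exact hb (this (right_mem_segment ℝ a b))

/-- Data for the convexity criterion: `p` is the derivative of `f`, `q` the derivative of `p`, both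
on the closed unit disc, `Re p > 0` there and `Re ((p + z q) p̄) ≥ 0` on the unit circle. -/
structure Crit (f p q : ℂ → ℂ) : Prop where
  hf : ∀ z ∈ closedBall (0 : ℂ) 1, HasDerivAt f (p z) z
  hp : ∀ z ∈ closedBall (0 : ℂ) 1, HasDerivAt p (q z) z
  hre : ∀ z ∈ closedBall (0 : ℂ) 1, 0 < (p z).re
  hK : ∀ z ∈ sphere (0 : ℂ) 1, 0 ≤ ((p z + z * q z) * (starRingEnd ℂ) (p z)).re

namespace Crit

variable {f p q : ℂ → ℂ}

lemma injOn (h : Crit f p q) : InjOn f (closedBall (0 : ℂ) 1) := by
  intro z₁ hz₁ z₂ hz₂ heq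
  by_contra hne
  set d : ℂ := z₂ - z₁ with hd
  have hdne : d ≠ 0 := sub_ne_zero.2 (Ne.symm hne)
  set F : ℝ → ℝ := fun s => ((starRingEnd ℂ) d * f (z₁ + s * d)).re with hF
  have hmem : ∀ s ∈ Icc (0 : ℝ) 1, z₁ + s * d ∈ closedBall (0 : ℂ) 1 := by
    intro s hs
    have := (convex_closedBall (0 : ℂ) 1) hz₁ hz₂ (sub_nonneg.2 hs.2) hs.1 (by ring)
    convert this using 1
    simp only [Complex.real_smul, hd]
    push_cast
    ring
  have hder : ∀ s ∈ Icc (0 : ℝ) 1, HasDerivAt F
      (((starRingEnd ℂ) d * (p (z₁ + s * d) * d)).re) s := by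
    intro s hs
    have h1 : HasDerivAt (fun s : ℝ => z₁ + (s : ℂ) * d) d s := by
      have := ((Complex.ofRealCLM.hasDerivAt (x := s)).mul_const d).const_add z₁
      simpa using this
    have h2 := (h.hf _ (hmem s hs)).comp_of_eq s h1 rfl
    have h3 := h2.const_mul ((starRingEnd ℂ) d)
    exact (Complex.reCLM.hasFDerivAt.comp_hasDerivAt s h3)
  have hpos : ∀ s ∈ Icc (0 : ℝ) 1, 0 < ((starRingEnd ℂ) d * (p (z₁ + s * d) * d)).re := by
    intro s hs
    have : (starRingEnd ℂ) d * (p (z₁ + s * d) * d) = (Complex.normSq d : ℂ) * p (z₁ + s * d) := by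
      rw [Complex.normSq_eq_conj_mul_self]; ring
    rw [this, Complex.re_ofReal_mul]
    exact mul_pos (Complex.normSq_pos.2 hdne) (h.hre _ (hmem s hs))
  have hcont : ContinuousOn F (Icc 0 1) := fun s hs => (hder s hs).continuousAt.continuousWithinAt
  obtain ⟨c, hc, hceq⟩ := exists_hasDerivAt_eq_slope F
    (fun s => ((starRingEnd ℂ) d * (p (z₁ + s * d) * d)).re) one_pos hcont
    (fun s hs => hder s (Ioo_subset_Icc_self hs))
  have hF0 : F 0 = ((starRingEnd ℂ) d * f z₁).re := by simp [hF]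
  have hF1 : F 1 = ((starRingEnd ℂ) d * f z₂).re := by simp [hF, hd]
  have := hpos c (Ioo_subset_Icc_self hc)
  rw [hceq, hF0, hF1, heq] at this
  simp at this

/-- the outer normal at the boundary point `f (e^{iτ})` -/
noncomputable def nrm (p : ℂ → ℂ) (τ : ℝ) : ℂ :=
  Complex.exp (τ * Complex.I) * p (Complex.exp (τ * Complex.I))

/-- argument of the outer normal -/
noncomputable def ang (p : ℂ → ℂ) (τ : ℝ) : ℝ := τ + (Complex.log (p (Complex.exp (τ * Complex.I)))).im

lemma exp_mem_sphere (τ : ℝ) : Complex.exp (τ * Complex.I) ∈ sphere (0 : ℂ) 1 := by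
  rw [mem_sphere_zero_iff_norm, Complex.norm_exp_ofReal_mul_I]

lemma exp_mem_closedBall (τ : ℝ) : Complex.exp (τ * Complex.I) ∈ closedBall (0 : ℂ) 1 :=
  sphere_subset_closedBall (exp_mem_sphere τ)

lemma hasDerivAt_exp (τ : ℝ) : HasDerivAt (fun τ : ℝ => Complex.exp (τ * Complex.I))
    (Complex.exp (τ * Complex.I) * Complex.I) τ := by
  have h1 : HasDerivAt (fun τ : ℝ => (τ : ℂ) * Complex.I) Complex.I τ := by
    have := (Complex.ofRealCLM.hasDerivAt (x := τ)).mul_const Complex.I
    simpa using this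
  exact h1.cexp

lemma nrm_eq (h : Crit f p q) (τ : ℝ) :
    nrm p τ = (‖p (Complex.exp (τ * Complex.I))‖ : ℂ) * Complex.exp (ang p τ * Complex.I) := by
  unfold nrm ang
  have hne : p (Complex.exp (τ * Complex.I)) ≠ 0 := by
    intro h0
    have := h.hre _ (exp_mem_closedBall τ)
    rw [h0] at this
    simp at this
  set w := p (Complex.exp (τ * Complex.I)) with hw
  push_cast
  rw [add_mul, Complex.exp_add]
  have h2 : (‖w‖ : ℂ) * Complex.exp (((Complex.log w).im : ℂ) * Complex.I) = w := by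
    rw [Complex.log_im]
    exact Complex.norm_mul_exp_arg_mul_I w
  calc Complex.exp (τ * Complex.I) * w
      = Complex.exp (τ * Complex.I) * ((‖w‖ : ℂ) *
          Complex.exp (((Complex.log w).im : ℂ) * Complex.I)) := by rw [h2]
    _ = _ := by ring

lemma ang_deriv (h : Crit f p q) (τ : ℝ) :
    ∃ d : ℝ, HasDerivAt (ang p) d τ ∧ 0 ≤ d := by
  set e := Complex.exp (τ * Complex.I) with he
  have hpos : 0 < (p e).re := h.hre _ (exp_mem_closedBall τ)
  have hslit : p e ∈ Complex.slitPlane := Or.inl hpos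
  have hne : p e ≠ 0 := by
    intro h0
    rw [h0] at hpos
    simp at hpos
  have h1 : HasDerivAt (fun τ : ℝ => p (Complex.exp (τ * Complex.I))) (q e * (e * Complex.I)) τ :=
    (h.hp _ (exp_mem_closedBall τ)).comp_of_eq τ (hasDerivAt_exp τ) rfl
  have h2 : HasDerivAt (fun τ : ℝ => Complex.log (p (Complex.exp (τ * Complex.I))))
      ((q e * (e * Complex.I)) / p e) τ := h1.clog_real hslit
  have h3 := (Complex.imCLM.hasFDerivAt.comp_hasDerivAt τ h2)
  have h4 : HasDerivAt (ang p) (1 + ((q e * (e * Complex.I)) / p e).im) τ := by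
    exact (hasDerivAt_id τ).add h3
  refine ⟨_, h4, ?_⟩
  have hns : 0 < Complex.normSq (p e) := Complex.normSq_pos.2 hne
  have hK := h.hK e (exp_mem_sphere τ)
  have key : 1 + ((q e * (e * Complex.I)) / p e).im =
      ((p e + e * q e) * (starRingEnd ℂ) (p e)).re / Complex.normSq (p e) := by
    rw [eq_div_iff hns.ne', Complex.div_im]
    field_simp
    simp only [Complex.mul_re, Complex.mul_im, Complex.I_re, Complex.I_im, Complex.add_re,
      Complex.add_im, Complex.conj_re, Complex.conj_im, Complex.normSq_apply]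
    ring
  rw [key]
  positivity

lemma ang_mono (h : Crit f p q) : Monotone (ang p) := by
  apply monotone_of_deriv_nonneg
  · intro τ
    obtain ⟨d, hd, -⟩ := h.ang_deriv τ
    exact hd.differentiableAt
  · intro τ
    obtain ⟨d, hd, hd0⟩ := h.ang_deriv τ
    rw [hd.deriv]
    exact hd0

lemma exp_periodic (τ : ℝ) : Complex.exp (((τ + 2 * Real.pi : ℝ) : ℂ) * Complex.I) =
    Complex.exp (τ * Complex.I) := by
  push_cast
  rw [add_mul, Complex.exp_add, Complex.exp_two_pi_mul_I, mul_one]

lemma ang_periodic (τ : ℝ) : ang p (τ + 2 * Real.pi) = ang p τ + 2 * Real.pi := by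
  unfold ang
  rw [exp_periodic]
  ring

/-- the support functional at the boundary point `f (e^{iθ})` -/
noncomputable def supp (f p : ℂ → ℂ) (θ τ : ℝ) : ℝ :=
  ((f (Complex.exp (τ * Complex.I)) - f (Complex.exp (θ * Complex.I))) *
    (starRingEnd ℂ) (nrm p θ)).re

lemma supp_deriv (h : Crit f p q) (θ τ : ℝ) :
    HasDerivAt (supp f p θ) (-(‖p (Complex.exp (τ * Complex.I))‖ *
      ‖p (Complex.exp (θ * Complex.I))‖ * Real.sin (ang p τ - ang p θ))) τ := by
  have h1 : HasDerivAt (fun τ : ℝ => f (Complex.exp (τ * Complex.I)))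
      (p (Complex.exp (τ * Complex.I)) * (Complex.exp (τ * Complex.I) * Complex.I)) τ :=
    (h.hf _ (exp_mem_closedBall τ)).comp_of_eq τ (hasDerivAt_exp τ) rfl
  have h2 := (h1.sub_const (f (Complex.exp (θ * Complex.I)))).mul_const
    ((starRingEnd ℂ) (nrm p θ))
  have h3 := (Complex.reCLM.hasFDerivAt.comp_hasDerivAt τ h2)
  have key : (p (Complex.exp (τ * Complex.I)) * (Complex.exp (τ * Complex.I) * Complex.I) *
      (starRingEnd ℂ) (nrm p θ)).re = -(‖p (Complex.exp (τ * Complex.I))‖ *
      ‖p (Complex.exp (θ * Complex.I))‖ * Real.sin (ang p τ - ang p θ)) := by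
    have e1 : p (Complex.exp (τ * Complex.I)) * (Complex.exp (τ * Complex.I) * Complex.I) *
      (starRingEnd ℂ) (nrm p θ) = Complex.I * (nrm p τ * (starRingEnd ℂ) (nrm p θ)) := by
      unfold nrm
      ring
    rw [e1, h.nrm_eq τ, h.nrm_eq θ, map_mul, Complex.conj_ofReal, ← Complex.exp_conj, map_mul,
      Complex.conj_ofReal, Complex.conj_I]
    have e2 : (‖p (Complex.exp (τ * Complex.I))‖ : ℂ) * Complex.exp (ang p τ * Complex.I) *
        ((‖p (Complex.exp (θ * Complex.I))‖ : ℂ) * Complex.exp (ang p θ * -Complex.I)) =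
        ((‖p (Complex.exp (τ * Complex.I))‖ * ‖p (Complex.exp (θ * Complex.I))‖ : ℝ) : ℂ) *
          Complex.exp ((ang p τ - ang p θ : ℝ) * Complex.I) := by
      push_cast
      rw [sub_mul, sub_eq_add_neg, Complex.exp_add]
      rw [mul_neg]
      ring
    rw [e2]
    simp only [Complex.mul_re, Complex.mul_im, Complex.I_re, Complex.I_im, Complex.ofReal_re,
      Complex.ofReal_im, Complex.exp_ofReal_mul_I_im]
    ring
  have h4 : HasDerivAt (supp f p θ) ((p (Complex.exp (τ * Complex.I)) *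
      (Complex.exp (τ * Complex.I) * Complex.I) * (starRingEnd ℂ) (nrm p θ)).re) τ := h3
  rw [key] at h4
  exact h4

lemma supp_nonpos_aux (h : Crit f p q) (θ τ : ℝ) (h1 : θ ≤ τ) (h2 : τ ≤ θ + 2 * Real.pi) :
    supp f p θ τ ≤ 0 := by
  have hcont : Continuous (supp f p θ) :=
    continuous_iff_continuousAt.2 fun x => (h.supp_deriv θ x).continuousAt
  have hdiff : Differentiable ℝ (supp f p θ) := fun x => (h.supp_deriv θ x).differentiableAt
  have hmono := h.ang_mono
  have hper := ang_periodic (p := p) θ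
  rcases le_or_gt (ang p τ - ang p θ) Real.pi with hle | hgt
  · have hanti : AntitoneOn (supp f p θ) (Icc θ τ) := by
      apply antitoneOn_of_deriv_nonpos (convex_Icc _ _) hcont.continuousOn
        hdiff.differentiableOn
      intro x hx
      rw [interior_Icc] at hx
      rw [(h.supp_deriv θ x).deriv]
      have hs : 0 ≤ Real.sin (ang p x - ang p θ) := by
        apply Real.sin_nonneg_of_nonneg_of_le_pi
        · have := hmono hx.1.le
          linarith
        · have := hmono hx.2.le
          linarith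
      have : 0 ≤ ‖p (Complex.exp (x * Complex.I))‖ * ‖p (Complex.exp (θ * Complex.I))‖ *
        Real.sin (ang p x - ang p θ) := by positivity
      linarith
    have := hanti (left_mem_Icc.2 h1) (right_mem_Icc.2 h1) h1
    have h0 : supp f p θ θ = 0 := by simp [supp]
    linarith
  · have hmon : MonotoneOn (supp f p θ) (Icc τ (θ + 2 * Real.pi)) := by
      apply monotoneOn_of_deriv_nonneg (convex_Icc _ _) hcont.continuousOn
        hdiff.differentiableOn
      intro x hx
      rw [interior_Icc] at hx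
      rw [(h.supp_deriv θ x).deriv]
      have hs : Real.sin (ang p x - ang p θ) ≤ 0 := by
        have h3 := hmono hx.1.le
        have h4 := hmono hx.2.le
        rw [hper] at h4
        have : Real.sin (ang p x - ang p θ - 2 * Real.pi) ≤ 0 := by
          apply Real.sin_nonpos_of_nonpos_of_neg_pi_le <;> linarith
        rwa [Real.sin_sub_two_pi] at this
      have : ‖p (Complex.exp (x * Complex.I))‖ * ‖p (Complex.exp (θ * Complex.I))‖ *
        Real.sin (ang p x - ang p θ) ≤ 0 :=
        mul_nonpos_of_nonneg_of_nonpos (by positivity) hs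
      linarith
    have := hmon (left_mem_Icc.2 h2) (right_mem_Icc.2 h2) h2
    have h0 : supp f p θ (θ + 2 * Real.pi) = 0 := by
      unfold supp
      rw [exp_periodic]
      simp
    linarith

lemma exists_angle {z : ℂ} (hz : z ∈ sphere (0 : ℂ) 1) (θ : ℝ) :
    ∃ τ : ℝ, θ ≤ τ ∧ τ ≤ θ + 2 * Real.pi ∧ Complex.exp (τ * Complex.I) = z := by
  rw [mem_sphere_zero_iff_norm] at hz
  set a := Complex.arg z with ha
  have hexp : Complex.exp (a * Complex.I) = z := by
    have := Complex.norm_mul_exp_arg_mul_I z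
    rwa [hz, Complex.ofReal_one, one_mul] at this
  set n : ℤ := ⌈(θ - a) / (2 * Real.pi)⌉ with hn
  have hpi : 0 < 2 * Real.pi := by positivity
  refine ⟨a + n * (2 * Real.pi), ?_, ?_, ?_⟩
  · have := Int.le_ceil ((θ - a) / (2 * Real.pi))
    rw [div_le_iff₀ hpi] at this
    linarith
  · have := (Int.ceil_lt_add_one ((θ - a) / (2 * Real.pi))).le
    rw [← hn] at this
    have h2 : ((n : ℝ) - 1) ≤ (θ - a) / (2 * Real.pi) := by linarith
    rw [le_div_iff₀ hpi] at h2
    linarith
  · push_cast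
    rw [add_mul, Complex.exp_add, hexp]
    have : ((n : ℂ) * (2 * Real.pi)) * Complex.I = n * (2 * Real.pi * Complex.I) := by ring
    rw [this, Complex.exp_int_mul_two_pi_mul_I, mul_one]

lemma supp_nonpos (h : Crit f p q) {ζ z : ℂ} (hζ : ζ ∈ sphere (0 : ℂ) 1)
    (hz : z ∈ sphere (0 : ℂ) 1) : ((f z - f ζ) * (starRingEnd ℂ) (ζ * p ζ)).re ≤ 0 := by
  obtain ⟨θ, -, -, hθ⟩ := exists_angle hζ 0
  obtain ⟨τ, h1, h2, hτ⟩ := exists_angle hz θ
  have := h.supp_nonpos_aux θ τ h1 h2
  unfold supp nrm at this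
  rwa [hθ, hτ] at this

lemma diffContOnCl (h : Crit f p q) : DiffContOnCl ℂ f (ball 0 1) := by
  apply DifferentiableOn.diffContOnCl
  rw [closure_ball _ one_ne_zero]
  exact fun z hz => (h.hf z hz).differentiableAt.differentiableWithinAt

lemma supp_nonpos' (h : Crit f p q) {ζ z : ℂ} (hζ : ζ ∈ sphere (0 : ℂ) 1)
    (hz : z ∈ closedBall (0 : ℂ) 1) : ((f z - f ζ) * (starRingEnd ℂ) (ζ * p ζ)).re ≤ 0 := by
  set g : ℂ → ℂ := fun z => Complex.exp ((f z - f ζ) * (starRingEnd ℂ) (ζ * p ζ)) with hg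
  have hd : DiffContOnCl ℂ g (ball 0 1) := by
    apply DifferentiableOn.diffContOnCl
    rw [closure_ball _ one_ne_zero]
    intro z hz
    have h1 : DifferentiableAt ℂ f z := (h.hf z hz).differentiableAt
    exact (((h1.sub_const _).mul_const _).cexp).differentiableWithinAt
  have hb : ∀ z ∈ frontier (ball (0 : ℂ) 1), ‖g z‖ ≤ 1 := by
    rw [frontier_ball _ one_ne_zero]
    intro z hz
    rw [hg]
    simp only [Complex.norm_exp]
    rw [Real.exp_le_one_iff]
    exact h.supp_nonpos hζ hz
  have hcl : z ∈ closure (ball (0 : ℂ) 1) := by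
    rwa [closure_ball _ one_ne_zero]
  have := Complex.norm_le_of_forall_mem_frontier_norm_le isBounded_ball hd hb hcl
  rw [hg] at this
  simp only [Complex.norm_exp, Real.exp_le_one_iff] at this
  exact this

lemma isOpen_img (h : Crit f p q) : IsOpen (f '' ball 0 1) :=
  isOpen_image_of_injOn h.diffContOnCl.differentiableOn
    (h.injOn.mono ball_subset_closedBall) Subset.rfl isOpen_ball

lemma supp_neg (h : Crit f p q) {ζ w : ℂ} (hζ : ζ ∈ sphere (0 : ℂ) 1)
    (hw : w ∈ f '' ball 0 1) : ((w - f ζ) * (starRingEnd ℂ) (ζ * p ζ)).re < 0 := by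
  obtain ⟨ε, hε, hball⟩ := Metric.isOpen_iff.1 h.isOpen_img w hw
  set N : ℂ := ζ * p ζ with hN
  have hNne : N ≠ 0 := by
    rw [hN]
    apply mul_ne_zero
    · intro h0
      rw [h0] at hζ
      simp at hζ
    · intro h0
      have := h.hre ζ (sphere_subset_closedBall hζ)
      rw [h0] at this
      simp at this
  have hNpos : 0 < ‖N‖ := norm_pos_iff.2 hNne
  set t : ℝ := ε / (2 * ‖N‖) with ht
  have htpos : 0 < t := by positivity
  have hmem : w + t * N ∈ ball w ε := by
    rw [mem_ball, dist_eq_norm, add_sub_cancel_left, norm_mul, Complex.norm_real,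
      Real.norm_of_nonneg htpos.le, ht]
    field_simp
    linarith
  obtain ⟨z, hz, hfz⟩ := hball hmem
  have h1 := h.supp_nonpos' hζ (ball_subset_closedBall hz)
  rw [hfz] at h1
  have h2 : ((w + t * N - f ζ) * (starRingEnd ℂ) N).re =
      ((w - f ζ) * (starRingEnd ℂ) N).re + t * Complex.normSq N := by
    have : (w + t * N - f ζ) * (starRingEnd ℂ) N = (w - f ζ) * (starRingEnd ℂ) N +
        ((t * Complex.normSq N : ℝ) : ℂ) := by
      push_cast
      rw [Complex.normSq_eq_conj_mul_self]
      ring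
    rw [this, Complex.add_re, Complex.ofReal_re]
  rw [h2] at h1
  have : 0 < t * Complex.normSq N := mul_pos htpos (Complex.normSq_pos.2 hNne)
  linarith

lemma frontier_subset (h : Crit f p q) : frontier (f '' ball 0 1) ⊆ f '' sphere 0 1 := by
  intro w hw
  rw [frontier, h.isOpen_img.interior_eq] at hw
  obtain ⟨hcl, hnot⟩ := hw
  have hcomp : IsCompact (f '' closedBall 0 1) :=
    (isCompact_closedBall (0 : ℂ) 1).image_of_continuousOn
      (fun z hz => (h.hf z hz).continuousAt.continuousWithinAt)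
  have hsub : closure (f '' ball 0 1) ⊆ f '' closedBall 0 1 :=
    closure_minimal (image_mono ball_subset_closedBall) hcomp.isClosed
  obtain ⟨z, hz, rfl⟩ := hsub hcl
  refine ⟨z, ?_, rfl⟩
  rw [mem_closedBall_zero_iff] at hz
  rw [mem_sphere_zero_iff_norm]
  apply le_antisymm hz
  by_contra hlt
  push Not at hlt
  exact hnot ⟨z, mem_ball_zero_iff.2 hlt, rfl⟩

lemma img_eq (h : Crit f p q) : f '' ball 0 1 =
    {w | ∀ ζ ∈ sphere (0 : ℂ) 1, ((w - f ζ) * (starRingEnd ℂ) (ζ * p ζ)).re < 0} := by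
  ext w
  constructor
  · intro hw ζ hζ
    exact h.supp_neg hζ hw
  · intro hw
    by_contra hnot
    have h0 : f 0 ∈ f '' ball 0 1 := ⟨0, by simp, rfl⟩
    obtain ⟨x, hx, hxf⟩ := segment_hits_frontier h.isOpen_img h0 hnot
    obtain ⟨ζ, hζ, rfl⟩ := h.frontier_subset hxf
    have h1 := h.supp_neg hζ h0
    have h2 := hw ζ hζ
    obtain ⟨a, b, ha, hb, hab, hxe⟩ := hx
    have h3 : ((f ζ - f ζ) * (starRingEnd ℂ) (ζ * p ζ)).re =
        a * ((f 0 - f ζ) * (starRingEnd ℂ) (ζ * p ζ)).re +
        b * ((w - f ζ) * (starRingEnd ℂ) (ζ * p ζ)).re := by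
      have e : f ζ - f ζ = a * (f 0 - f ζ) + b * (w - f ζ) := by
        have e1 : (a : ℂ) * f 0 + b * w = f ζ := by
          rw [← hxe]; simp
        have e2 : (a : ℂ) + b = 1 := by exact_mod_cast hab
        linear_combination (-1 : ℂ) * e1 + f ζ * e2
      rw [e, add_mul, mul_assoc, mul_assoc, Complex.add_re, Complex.re_ofReal_mul,
        Complex.re_ofReal_mul]
    rw [sub_self, zero_mul, Complex.zero_re] at h3
    rcases ha.eq_or_lt with ha0 | ha0
    · have hb1 : b = 1 := by linarith
      rw [← ha0, hb1] at h3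
      linarith
    · nlinarith

lemma convex_img (h : Crit f p q) : Convex ℝ (f '' ball 0 1) := by
  rw [h.img_eq]
  intro x hx y hy a b ha hb hab ζ hζ
  have h1 := hx ζ hζ
  have h2 := hy ζ hζ
  have e : a • x + b • y - f ζ = a * (x - f ζ) + b * (y - f ζ) := by
    have e2 : (a : ℂ) + b = 1 := by exact_mod_cast hab
    simp only [Complex.real_smul]
    linear_combination f ζ * e2
  rw [e, add_mul, mul_assoc, mul_assoc, Complex.add_re, Complex.re_ofReal_mul,
    Complex.re_ofReal_mul]
  rcases ha.eq_or_lt with ha0 | ha0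
  · have hb1 : b = 1 := by linarith
    rw [← ha0, hb1]
    linarith
  · nlinarith

end Crit

end Pool.Agent.H67.OmArc
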