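import Mathlib

set_option autoImplicit false

/-!
# Definitions: normalized convex univalent functions, omitted arc length, the three shapes
-/

namespace Pool.Agent.H67.OmArc

open Complex Metric Set MeasureTheory

/-- The class `S^c`: functions analytic and univalent (injective) in the open unit disc `Δ`, with
`f 0 = 0`, `f' 0 = 1` and convex image `f(Δ)`. -/
def Sc : Set (ℂ → ℂ) :=
  {f | DifferentiableOn ℂ f (ball 0 1) ∧ InjOn f (ball 0 1) ∧ f 0 = 0 ∧ deriv f 0 = 1 ∧
    Convex ℝ (f '' ball 0 1)}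

/-- The image domain `f(Δ)` of the open unit disc `Δ`. -/
def img (f : ℂ → ℂ) : Set ℂ := f '' ball 0 1

/-- `L(f,r)`: the linear (arc length) measure of `(Δ \ f(Δ)) ∩ {|w| = r}`, i.e. `r` times the
Lebesgue measure of the set of angles `θ ∈ (-π, π]` such that `r e^{iθ}` lies in `Δ \ f(Δ)`. -/
noncomputable def L (f : ℂ → ℂ) (r : ℝ) : ℝ :=
  r * (volume {θ : ℝ | θ ∈ Ioc (-Real.pi) Real.pi ∧
    (r : ℂ) * Complex.exp (θ * Complex.I) ∈ ball (0 : ℂ) 1 \ img f}).toReal

/-- `f ∈ S^c` attains the supremum `L^c(r)` of `L(·,r)` over `S^c`; then `f(Δ)` is an extremal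
domain for `L^c(r)`. -/
def IsExtremalL (f : ℂ → ℂ) (r : ℝ) : Prop := f ∈ Sc ∧ ∀ g ∈ Sc, L g r ≤ L f r

/-- Shape (i): an open half-plane `{w : Re (ū w) < d}`, `|u| = 1`. -/
def IsHalfPlane (D : Set ℂ) : Prop :=
  ∃ (u : ℂ) (d : ℝ), ‖u‖ = 1 ∧ D = {w | ((starRingEnd ℂ) u * w).re < d}

/-- Shape (ii): an open sector with vertex `-a u`, axis direction `u` (`|u| = 1`) and half-angle
`α`; its bisecting line is the line through the origin in direction `u`. -/
def IsSymmSector (D : Set ℂ) : Prop :=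
  ∃ (u : ℂ) (a α : ℝ), ‖u‖ = 1 ∧ 0 < α ∧ α < Real.pi / 2 ∧
    D = {w | (starRingEnd ℂ) u * w + a ≠ 0 ∧ |((starRingEnd ℂ) u * w + a).arg| < α}

/-- The arc `{r e^{it} : s ≤ t ≤ t'}` of the circle `|w| = r`. -/
def arc (r s t' : ℝ) : Set ℂ := (fun t : ℝ => (r : ℂ) * Complex.exp (t * Complex.I)) '' Icc s t'

/-- The tangent line to the circle `|w| = r` at the point `r e^{it}`. -/
def tangentLine (r t : ℝ) : Set ℂ := {w | (w * Complex.exp (-(t * Complex.I))).re = r}

/-- Shape (iii): the boundary consists of a single arc of the circle `|w| = r` together with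
(parts of) the lines tangent to that circle at the two endpoints of the arc. -/
def IsArcTangent (r : ℝ) (D : Set ℂ) : Prop :=
  ∃ s t : ℝ, s < t ∧ t < s + 2 * Real.pi ∧ arc r s t ⊆ frontier D ∧
    frontier D ⊆ arc r s t ∪ tangentLine r s ∪ tangentLine r t

end Pool.Agent.H67.OmArc
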