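import Pool.Agent.H67.OmArc.Compact

set_option autoImplicit false

/-!
# Existence of extremal functions for the omitted arc length
-/

namespace Pool.Agent.H67.OmArc

open Complex Metric Set Filter Topology MeasureTheory

/-- angles of the points of the circle of radius `r` covered by `D` -/
def covSet (D : Set ℂ) (r : ℝ) : Set ℝ :=
  {θ : ℝ | θ ∈ Ioc (-Real.pi) Real.pi ∧ (r : ℂ) * Complex.exp (θ * Complex.I) ∈ D}

/-- measure of the covered angles -/
noncomputable def cov (D : Set ℂ) (r : ℝ) : ENNReal := volume (covSet D r)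

lemma circle_continuous (r : ℝ) :
    Continuous (fun θ : ℝ => (r : ℂ) * Complex.exp (θ * Complex.I)) := by
  fun_prop

lemma covSet_measurable {D : Set ℂ} (hD : IsOpen D) (r : ℝ) : MeasurableSet (covSet D r) := by
  have : covSet D r = Ioc (-Real.pi) Real.pi ∩
      (fun θ : ℝ => (r : ℂ) * Complex.exp (θ * Complex.I)) ⁻¹' D := rfl
  rw [this]
  exact measurableSet_Ioc.inter (hD.preimage (circle_continuous r)).measurableSet

lemma covSet_subset (D : Set ℂ) (r : ℝ) : covSet D r ⊆ Ioc (-Real.pi) Real.pi := fun _ h => h.1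

lemma cov_le (D : Set ℂ) (r : ℝ) : cov D r ≤ ENNReal.ofReal (2 * Real.pi) := by
  calc cov D r ≤ volume (Ioc (-Real.pi) Real.pi) := measure_mono (covSet_subset D r)
    _ = ENNReal.ofReal (2 * Real.pi) := by rw [Real.volume_Ioc]; congr 1; ring

lemma cov_ne_top (D : Set ℂ) (r : ℝ) : cov D r ≠ ⊤ :=
  ne_top_of_le_ne_top ENNReal.ofReal_ne_top (cov_le D r)

lemma norm_circle {r : ℝ} (hr : 0 ≤ r) (θ : ℝ) :
    ‖(r : ℂ) * Complex.exp (θ * Complex.I)‖ = r := by
  rw [norm_mul, Complex.norm_exp_ofReal_mul_I, mul_one, Complex.norm_real, Real.norm_of_nonneg hr]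

lemma L_eq {f : ℂ → ℂ} (hf : f ∈ Sc) {r : ℝ} (h0 : 0 < r) (h1 : r < 1) :
    L f r = r * (2 * Real.pi - (cov (img f) r).toReal) := by
  unfold L
  congr 1
  have hset : {θ : ℝ | θ ∈ Ioc (-Real.pi) Real.pi ∧
      (r : ℂ) * Complex.exp (θ * Complex.I) ∈ ball (0 : ℂ) 1 \ img f} =
      Ioc (-Real.pi) Real.pi \ covSet (img f) r := by
    ext θ
    constructor
    · rintro ⟨h, -, hn⟩
      exact ⟨h, fun hc => hn hc.2⟩
    · rintro ⟨h, hn⟩
      refine ⟨h, ?_, fun hc => hn ⟨h, hc⟩⟩
      rw [mem_ball_zero_iff, norm_circle h0.le]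
      exact h1
  rw [hset, measure_sdiff (covSet_subset _ _) (covSet_measurable (img_open hf) r).nullMeasurableSet
    (cov_ne_top _ _)]
  have hv : volume (Ioc (-Real.pi) Real.pi) = ENNReal.ofReal (2 * Real.pi) := by
    rw [Real.volume_Ioc]; congr 1; ring
  change (volume (Ioc (-Real.pi) Real.pi) - cov (img f) r).toReal = _
  rw [hv, ENNReal.toReal_sub_of_le (cov_le _ _) ENNReal.ofReal_ne_top,
    ENNReal.toReal_ofReal (by positivity)]

lemma id_mem_Sc : (id : ℂ → ℂ) ∈ Sc := by
  refine ⟨differentiable_id.differentiableOn, injOn_id _, rfl, by simp, ?_⟩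
  rw [image_id]
  exact convex_ball 0 1

/-- There is a function in `S^c` covering the least portion of the circle `|w| = r`. -/
lemma exists_min_cov (r : ℝ) : ∃ F ∈ Sc, ∀ g ∈ Sc, cov (img F) r ≤ cov (img g) r := by
  set S : Set ENNReal := (fun f => cov (img f) r) '' Sc with hS
  have hne : S.Nonempty := ⟨_, ⟨id, id_mem_Sc, rfl⟩⟩
  obtain ⟨u, -, hu, huS⟩ := exists_seq_tendsto_sInf hne (OrderBot.bddBelow S)
  choose fn hfn hfu using huS
  obtain ⟨F, hF, φ, hφ, hcov⟩ := exists_subseq hfn
  refine ⟨F, hF, fun g hg => ?_⟩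
  have hle : cov (img F) r ≤ sInf S := by
    have h1 : Tendsto (fun n => cov (img (fn (φ n))) r) atTop (𝓝 (sInf S)) := by
      have := hu.comp hφ.tendsto_atTop
      refine this.congr fun n => ?_
      simp only [Function.comp_apply]
      exact (hfu (φ n)).symm
    have h2 : cov (img F) r ≤ liminf (fun n => cov (img (fn (φ n))) r) atTop := by
      have e1 : ∀ D : Set ℂ, IsOpen D →
          cov D r = ∫⁻ θ, (covSet D r).indicator (fun _ => (1 : ENNReal)) θ := by
        intro D hD
        have := lintegral_indicator_one (μ := (volume : Measure ℝ)) (covSet_measurable hD r)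
        rw [cov, ← this]
        rfl
      calc cov (img F) r
          = ∫⁻ θ, (covSet (img F) r).indicator (fun _ => (1 : ENNReal)) θ := e1 _ (img_open hF)
        _ ≤ ∫⁻ θ, liminf (fun n => (covSet (img (fn (φ n))) r).indicator
              (fun _ => (1 : ENNReal)) θ) atTop := by
            apply lintegral_mono
            intro θ
            by_cases hθ : θ ∈ covSet (img F) r
            · rw [indicator_of_mem hθ]
              apply le_liminf_of_le
              · isBoundedDefault
              filter_upwards [hcov _ hθ.2] with n hn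
              have hmem : θ ∈ covSet (img (fn (φ n))) r := ⟨hθ.1, hn⟩
              rw [indicator_of_mem hmem]
            · rw [indicator_of_notMem hθ]
              exact zero_le
        _ ≤ liminf (fun n => ∫⁻ θ, (covSet (img (fn (φ n))) r).indicator
              (fun _ => (1 : ENNReal)) θ) atTop := by
            apply lintegral_liminf_le
            intro n
            exact measurable_const.indicator (covSet_measurable (img_open (hfn _)) r)
        _ = liminf (fun n => cov (img (fn (φ n))) r) atTop := by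
            congr 1
            funext n
            exact (e1 _ (img_open (hfn _))).symm
    rwa [h1.liminf_eq] at h2
  exact hle.trans (sInf_le ⟨g, hg, rfl⟩)

/-- Comparison of `L` through the covered angles. -/
lemma L_le_iff {f g : ℂ → ℂ} (hf : f ∈ Sc) (hg : g ∈ Sc) {r : ℝ} (h0 : 0 < r) (h1 : r < 1) :
    L g r ≤ L f r ↔ cov (img f) r ≤ cov (img g) r := by
  rw [L_eq hf h0 h1, L_eq hg h0 h1, mul_le_mul_iff_right₀ h0, sub_le_sub_iff_left,
    ENNReal.toReal_le_toReal (cov_ne_top _ _) (cov_ne_top _ _)]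

theorem exists_extremal {r : ℝ} (h0 : 0 < r) (h1 : r < 1) : ∃ f, IsExtremalL f r := by
  obtain ⟨F, hF, hmin⟩ := exists_min_cov r
  exact ⟨F, hF, fun g hg => (L_le_iff hF hg h0 h1).2 (hmin g hg)⟩

end Pool.Agent.H67.OmArc
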