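import Mathlib

set_option autoImplicit false

/-!
# The inverse of an injective analytic function on the disc is analytic
-/

namespace Pool.Agent.H67.OmArc

open Complex Metric Set Filter Topology

lemma ball_isPreconnected : IsPreconnected (ball (0 : ℂ) 1) :=
  (convex_ball (0 : ℂ) 1).isPreconnected

lemma not_const_of_injOn {f : ℂ → ℂ} (hi : InjOn f (ball 0 1)) :
    ¬ ∃ w, ∀ z ∈ ball (0 : ℂ) 1, f z = w := by
  rintro ⟨w, hw⟩
  have h0 : (0 : ℂ) ∈ ball (0 : ℂ) 1 := by simp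
  have h1 : (1 / 2 : ℂ) ∈ ball (0 : ℂ) 1 := by
    simp only [mem_ball_zero_iff]
    norm_num
  have := hi h0 h1 (by rw [hw 0 h0, hw _ h1])
  norm_num at this

lemma isOpen_image_of_injOn {f : ℂ → ℂ} (hf : DifferentiableOn ℂ f (ball 0 1))
    (hi : InjOn f (ball 0 1)) {s : Set ℂ} (hs : s ⊆ ball 0 1) (ho : IsOpen s) :
    IsOpen (f '' s) := by
  have han : AnalyticOnNhd ℂ f (ball 0 1) := hf.analyticOnNhd isOpen_ball
  rcases han.is_constant_or_isOpen ball_isPreconnected with h | h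
  · exact absurd h (not_const_of_injOn hi)
  · exact h s hs ho

lemma not_locally_const {f : ℂ → ℂ} (hi : InjOn f (ball 0 1)) {z₀ : ℂ} (hz : z₀ ∈ ball (0 : ℂ) 1) :
    ∃ᶠ z in 𝓝 z₀, f z ≠ f z₀ := by
  rw [Filter.Frequently]
  intro h
  have h' : ∀ᶠ z in 𝓝 z₀, f z = f z₀ := by
    filter_upwards [h] with z hz
    simpa using hz
  have h2 : ∀ᶠ z in 𝓝 z₀, z ∈ ball (0 : ℂ) 1 := isOpen_ball.mem_nhds hz
  have h3 : ∀ᶠ z in 𝓝 z₀, z = z₀ := by
    filter_upwards [h', h2] with z h1 h2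
    exact hi h2 hz h1
  have h4 : (𝓝[≠] z₀).NeBot := inferInstance
  have h5 : ∀ᶠ z in 𝓝[≠] z₀, z = z₀ := h3.filter_mono nhdsWithin_le_nhds
  have h6 : ∀ᶠ z in 𝓝[≠] z₀, z ≠ z₀ := self_mem_nhdsWithin
  obtain ⟨z, hz1, hz2⟩ := (h5.and h6).exists
  exact hz2 hz1

/-- An injective analytic function on the unit disc has an analytic inverse on its image. -/
theorem exists_inverse {f : ℂ → ℂ} (hf : DifferentiableOn ℂ f (ball 0 1))
    (hi : InjOn f (ball 0 1)) :
    ∃ g : ℂ → ℂ, DifferentiableOn ℂ g (f '' ball 0 1) ∧ (∀ z ∈ ball (0 : ℂ) 1, g (f z) = z) ∧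
      MapsTo g (f '' ball 0 1) (ball 0 1) := by
  classical
  set g := Function.invFunOn f (ball (0 : ℂ) 1) with hg
  have hgf : ∀ z ∈ ball (0 : ℂ) 1, g (f z) = z := fun z hz => hi.leftInvOn_invFunOn hz
  have hmaps : MapsTo g (f '' ball 0 1) (ball 0 1) := by
    rintro _ ⟨z, hz, rfl⟩
    rw [hgf z hz]; exact hz
  have hopen : IsOpen (f '' ball 0 1) := isOpen_image_of_injOn hf hi Subset.rfl isOpen_ball
  have hcont : ∀ w ∈ f '' ball 0 1, ContinuousAt g w := by
    rintro _ ⟨z, hz, rfl⟩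
    rw [ContinuousAt, hgf z hz]
    rw [(nhds_basis_opens z).tendsto_right_iff]
    rintro V ⟨hzV, hVo⟩
    have hVo' : IsOpen (V ∩ ball 0 1) := hVo.inter isOpen_ball
    have h1 : IsOpen (f '' (V ∩ ball 0 1)) := isOpen_image_of_injOn hf hi inter_subset_right hVo'
    have h2 : f z ∈ f '' (V ∩ ball 0 1) := ⟨z, ⟨hzV, hz⟩, rfl⟩
    filter_upwards [h1.mem_nhds h2]
    rintro _ ⟨z', ⟨hz'V, hz'⟩, rfl⟩
    rw [hgf z' hz']; exact hz'V
  have hfg : ∀ w ∈ f '' ball 0 1, f (g w) = w := by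
    rintro _ ⟨z, hz, rfl⟩
    rw [hgf z hz]
  have hderiv : ∀ z ∈ ball (0 : ℂ) 1, deriv f z ≠ 0 → DifferentiableAt ℂ g (f z) := by
    intro z hz hne
    have h1 : HasDerivAt f (deriv f z) (g (f z)) := by
      rw [hgf z hz]
      exact (hf.differentiableAt (isOpen_ball.mem_nhds hz)).hasDerivAt
    have h2 : ∀ᶠ y in 𝓝 (f z), f (g y) = y := by
      filter_upwards [hopen.mem_nhds ⟨z, hz, rfl⟩] with y hy
      exact hfg y hy
    exact (HasDerivAt.of_local_left_inverse (hcont _ ⟨z, hz, rfl⟩) h1 hne h2).differentiableAt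
  refine ⟨g, ?_, hgf, hmaps⟩
  rintro _ ⟨z₀, hz₀, rfl⟩
  apply DifferentiableAt.differentiableWithinAt
  apply AnalyticAt.differentiableAt
  apply Complex.analyticAt_of_differentiable_on_punctured_nhds_of_continuousAt _
    (hcont _ ⟨z₀, hz₀, rfl⟩)
  have han : AnalyticOnNhd ℂ f (ball 0 1) := hf.analyticOnNhd isOpen_ball
  have hdan : AnalyticAt ℂ (deriv f) z₀ := (han z₀ hz₀).deriv
  rcases hdan.eventually_eq_zero_or_eventually_ne_zero with h | h
  · exfalso
    -- the derivative vanishes near `z₀`, so `f` is locally constant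
    obtain ⟨ε, hε, hball⟩ := Metric.eventually_nhds_iff_ball.1
      (h.and (isOpen_ball.mem_nhds hz₀ : ball (0 : ℂ) 1 ∈ 𝓝 z₀))
    have hc : ∀ z ∈ ball z₀ ε, f z = f z₀ := by
      intro z hz
      have hd : DifferentiableOn ℂ f (ball z₀ ε) := fun w hw =>
        (hf.differentiableAt (isOpen_ball.mem_nhds (hball w hw).2)).differentiableWithinAt
      exact IsOpen.is_const_of_deriv_eq_zero isOpen_ball (convex_ball z₀ ε).isPreconnected hd
        (fun w hw => (hball w hw).1) hz (mem_ball_self hε)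
    have := not_locally_const hi hz₀
    apply this
    filter_upwards [ball_mem_nhds z₀ hε] with z hz
    simpa using hc z hz
  · have hT : Tendsto g (𝓝[≠] (f z₀)) (𝓝[≠] z₀) := by
      rw [tendsto_nhdsWithin_iff]
      constructor
      · have := (hcont _ ⟨z₀, hz₀, rfl⟩).tendsto
        rw [hgf z₀ hz₀] at this
        exact this.mono_left nhdsWithin_le_nhds
      · have h1 : ∀ᶠ w in 𝓝[≠] (f z₀), w ∈ f '' ball 0 1 :=
          nhdsWithin_le_nhds (hopen.mem_nhds ⟨z₀, hz₀, rfl⟩)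
        filter_upwards [h1, self_mem_nhdsWithin] with w hw hne heq
        apply hne
        have heq' : g w = z₀ := heq
        have := hfg w hw
        rw [heq'] at this
        exact this.symm
    have h1 : ∀ᶠ w in 𝓝[≠] (f z₀), w ∈ f '' ball 0 1 :=
      nhdsWithin_le_nhds (hopen.mem_nhds ⟨z₀, hz₀, rfl⟩)
    filter_upwards [h1, hT.eventually h] with w hw hne
    obtain ⟨z, hz, rfl⟩ := hw
    rw [hgf z hz] at hne
    exact hderiv z hz hne

end Pool.Agent.H67.OmArc
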