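import Pool.Agent.H67.OmArc.Defs
import Pool.Agent.H67.OmArc.Inverse

set_option autoImplicit false

/-!
# Covering and growth theorems for normalized convex functions
-/

namespace Pool.Agent.H67.OmArc

open Complex Metric Set Filter Topology

/-- If `h` is analytic in the disc, `h 0 = 0` and `Re h < d`, then `|h' 0| ≤ 2 d`. -/
lemma deriv_le_of_re_lt {h : ℂ → ℂ} {d : ℝ} (hd : DifferentiableOn ℂ h (ball 0 1)) (h0 : h 0 = 0)
    (hre : ∀ z ∈ ball (0 : ℂ) 1, (h z).re < d) : ‖deriv h 0‖ ≤ 2 * d := by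
  have h0mem : (0 : ℂ) ∈ ball (0 : ℂ) 1 := by simp
  have hdpos : 0 < d := by
    have := hre 0 h0mem
    rw [h0] at this
    simpa using this
  have hder : HasDerivAt h (deriv h 0) 0 :=
    (hd.differentiableAt (isOpen_ball.mem_nhds h0mem)).hasDerivAt
  have hslope := hder.tendsto_slope
  have hlim : Tendsto (fun z : ℂ => ‖slope h 0 z‖) (𝓝[≠] 0) (𝓝 ‖deriv h 0‖) := hslope.norm
  have hlim2 : Tendsto (fun z : ℂ => 2 * d / (1 - ‖z‖)) (𝓝[≠] 0) (𝓝 (2 * d)) := by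
    have : Tendsto (fun z : ℂ => 2 * d / (1 - ‖z‖)) (𝓝 0) (𝓝 (2 * d / (1 - ‖(0 : ℂ)‖))) := by
      apply ContinuousAt.tendsto
      apply ContinuousAt.div continuousAt_const
      · exact (continuousAt_const.sub continuous_norm.continuousAt)
      · simp
    simp only [norm_zero, sub_zero, div_one] at this
    exact this.mono_left nhdsWithin_le_nhds
  refine le_of_tendsto_of_tendsto hlim hlim2 ?_
  have h1 : ∀ᶠ z in 𝓝[≠] (0 : ℂ), z ∈ ball (0 : ℂ) 1 :=
    nhdsWithin_le_nhds (isOpen_ball.mem_nhds h0mem)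
  filter_upwards [h1, self_mem_nhdsWithin] with z hz hne
  have hne' : z ≠ 0 := hne
  have hb := Complex.borelCaratheodory_zero hdpos hd (fun w hw => (hre w hw).le) one_pos hz h0
  rw [slope_def_field, h0, sub_zero, sub_zero, norm_div]
  rw [div_le_iff₀ (norm_pos_iff.2 hne')]
  calc ‖h z‖ ≤ 2 * d * ‖z‖ / (1 - ‖z‖) := hb
    _ = 2 * d / (1 - ‖z‖) * ‖z‖ := by ring

/-- separation of a point from an open convex set, in complex notation -/
lemma exists_separating {D : Set ℂ} (hc : Convex ℝ D) (ho : IsOpen D) {w₀ : ℂ} (hw : w₀ ∉ D) :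
    ∃ v : ℂ, ‖v‖ = 1 ∧ ∀ w ∈ D, (v * w).re < (v * w₀).re := by
  obtain ⟨φ, hφ⟩ := geometric_hahn_banach_open_point hc ho hw
  by_cases hD : D.Nonempty
  · obtain ⟨a, ha⟩ := hD
    set v : ℂ := ⟨φ 1, -φ Complex.I⟩ with hv
    have hrep : ∀ w : ℂ, φ w = (v * w).re := by
      intro w
      have h1 : w = w.re • (1 : ℂ) + w.im • Complex.I := by
        apply Complex.ext <;> simp
      conv_lhs => rw [h1, map_add, map_smul, map_smul]
      simp [hv, Complex.mul_re]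
      ring
    have hvne : v ≠ 0 := by
      intro h0
      have := hφ a ha
      rw [hrep, hrep, h0] at this
      simp at this
    refine ⟨v / ‖v‖, ?_, fun w hw' => ?_⟩
    · rw [norm_div]
      simp [hvne]
    · have := hφ w hw'
      rw [hrep, hrep] at this
      have hpos : 0 < ‖v‖ := norm_pos_iff.2 hvne
      have key : ∀ x : ℂ, (v / ‖v‖ * x).re = (v * x).re / ‖v‖ := by
        intro x
        rw [div_mul_eq_mul_div, Complex.div_ofReal_re]
      rw [key, key]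
      exact div_lt_div_of_pos_right this hpos
  · refine ⟨1, by simp, fun w hw' => absurd ⟨w, hw'⟩ hD⟩

lemma img_open {f : ℂ → ℂ} (hf : f ∈ Sc) : IsOpen (img f) :=
  isOpen_image_of_injOn hf.1 hf.2.1 Subset.rfl isOpen_ball

lemma img_convex {f : ℂ → ℂ} (hf : f ∈ Sc) : Convex ℝ (img f) := hf.2.2.2.2

lemma zero_mem_img {f : ℂ → ℂ} (hf : f ∈ Sc) : (0 : ℂ) ∈ img f :=
  ⟨0, by simp, hf.2.2.1⟩

/-- If `f ∈ S^c` and `f(Δ)` lies in the half-plane `Re (v w) < d`, `|v| = 1`, then `d ≥ 1/2`. -/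
lemma half_le_of_subset_halfPlane {f : ℂ → ℂ} (hf : f ∈ Sc) {v : ℂ} (hv : ‖v‖ = 1) {d : ℝ}
    (hD : ∀ w ∈ img f, (v * w).re < d) : 1 / 2 ≤ d := by
  have hd : DifferentiableOn ℂ (fun z => v * f z) (ball 0 1) := hf.1.const_mul v
  have h := deriv_le_of_re_lt hd (by simp [hf.2.2.1]) (fun z hz => hD _ ⟨z, hz, rfl⟩)
  have h0mem : (0 : ℂ) ∈ ball (0 : ℂ) 1 := by simp
  have hder : HasDerivAt f 1 0 := by
    have := (hf.1.differentiableAt (isOpen_ball.mem_nhds h0mem)).hasDerivAt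
    rwa [hf.2.2.2.1] at this
  have h2 : deriv (fun z => v * f z) 0 = v := by
    have := (hder.const_mul v).deriv
    rw [this, mul_one]
  rw [h2, hv] at h
  linarith

/-- The `1/2` covering theorem. -/
lemma ball_half_subset {f : ℂ → ℂ} (hf : f ∈ Sc) : ball (0 : ℂ) (1 / 2) ⊆ img f := by
  intro w₀ hw₀
  by_contra hnot
  obtain ⟨v, hv, hsep⟩ := exists_separating (img_convex hf) (img_open hf) hnot
  have h := half_le_of_subset_halfPlane hf hv hsep
  have h1 : (v * w₀).re ≤ ‖w₀‖ := by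
    calc (v * w₀).re ≤ ‖v * w₀‖ := Complex.re_le_norm _
      _ = ‖w₀‖ := by rw [norm_mul, hv, one_mul]
  rw [mem_ball_zero_iff] at hw₀
  linarith

/-- `f(Δ)` does not contain the disc of radius `2`. -/
lemma exists_not_mem {f : ℂ → ℂ} (hf : f ∈ Sc) : ∃ w₀, ‖w₀‖ < 2 ∧ w₀ ∉ img f := by
  by_contra hcon
  push Not at hcon
  obtain ⟨g, hg, hgf, hmaps⟩ := exists_inverse hf.1 hf.2.1
  have hsub : ball (0 : ℂ) 2 ⊆ f '' ball 0 1 := by
    intro w hw
    exact hcon w (mem_ball_zero_iff.1 hw)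
  have h0mem : (0 : ℂ) ∈ ball (0 : ℂ) 1 := by simp
  have hg0 : g 0 = 0 := by
    have := hgf 0 h0mem
    rwa [hf.2.2.1] at this
  have hgd : DifferentiableOn ℂ g (ball 0 2) := hg.mono hsub
  have hgm : MapsTo g (ball 0 2) (ball (g 0) 1) := by
    rw [hg0]
    exact fun w hw => hmaps (hsub hw)
  have h1 := Complex.norm_deriv_le_div_of_mapsTo_ball hgd (hgm.mono_right ball_subset_closedBall)
    (by norm_num)
  have hfd : HasDerivAt f 1 0 := by
    have := (hf.1.differentiableAt (isOpen_ball.mem_nhds h0mem)).hasDerivAt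
    rwa [hf.2.2.2.1] at this
  have hgd0 : HasDerivAt g (deriv g 0) (f 0) := by
    rw [hf.2.2.1]
    exact (hgd.differentiableAt (isOpen_ball.mem_nhds (by simp))).hasDerivAt
  have hcomp := hgd0.comp (0 : ℂ) hfd
  have hid : HasDerivAt (g ∘ f) 1 0 := by
    have : (g ∘ f) =ᶠ[𝓝 0] id := by
      filter_upwards [isOpen_ball.mem_nhds h0mem] with z hz
      exact hgf z hz
    exact (hasDerivAt_id 0).congr_of_eventuallyEq this
  have := hcomp.unique hid
  rw [mul_one] at this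
  rw [this] at h1
  norm_num at h1

/-- Growth bound for `S^c`. -/
lemma growth {f : ℂ → ℂ} (hf : f ∈ Sc) {z : ℂ} (hz : z ∈ ball (0 : ℂ) 1) :
    ‖f z‖ ≤ 4 * ‖z‖ / (1 - ‖z‖) := by
  obtain ⟨w₀, hw₀, hnot⟩ := exists_not_mem hf
  obtain ⟨v, hv, hsep⟩ := exists_separating (img_convex hf) (img_open hf) hnot
  have h1 : (v * w₀).re ≤ 2 := by
    calc (v * w₀).re ≤ ‖v * w₀‖ := Complex.re_le_norm _
      _ = ‖w₀‖ := by rw [norm_mul, hv, one_mul]
      _ ≤ 2 := hw₀.le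
  have hd : DifferentiableOn ℂ (fun z => v * f z) (ball 0 1) := hf.1.const_mul v
  have hb := Complex.borelCaratheodory_zero (M := 2) (f := fun z => v * f z) (by norm_num) hd
    (fun w hw => ((hsep _ ⟨w, hw, rfl⟩).trans_le h1).le) one_pos hz (by simp [hf.2.2.1])
  simp only [norm_mul, hv, one_mul] at hb
  calc ‖f z‖ ≤ 2 * 2 * ‖z‖ / (1 - ‖z‖) := hb
    _ = 4 * ‖z‖ / (1 - ‖z‖) := by norm_num

/-- Study's theorem: the images of concentric closed discs are convex. -/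
lemma study {f : ℂ → ℂ} (hf : f ∈ Sc) {ρ : ℝ} (hρ : ρ < 1) {z₁ z₂ : ℂ}
    (h₁ : ‖z₁‖ ≤ ρ) (h₂ : ‖z₂‖ ≤ ρ) {a b : ℝ} (ha : 0 ≤ a) (hb : 0 ≤ b) (hab : a + b = 1) :
    ∃ ζ : ℂ, ‖ζ‖ ≤ ρ ∧ f ζ = a * f z₁ + b * f z₂ := by
  wlog hle : ‖z₁‖ ≤ ‖z₂‖ with H
  · obtain ⟨ζ, hζ, hfζ⟩ := H hf hρ h₂ h₁ hb ha (by linarith) (le_of_not_ge hle)
    exact ⟨ζ, hζ, by rw [hfζ]; ring⟩
  by_cases hz2 : z₂ = 0
  · have hz1 : z₁ = 0 := by
      rw [hz2, norm_zero] at hle
      exact norm_le_zero_iff.1 hle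
    refine ⟨0, by rw [norm_zero]; exact (norm_nonneg _).trans h₁, ?_⟩
    rw [hz1, hz2, hf.2.2.1]
    simp
  · obtain ⟨g, hg, hgf, hmaps⟩ := exists_inverse hf.1 hf.2.1
    set q : ℂ := z₁ / z₂ with hq
    have hqn : ‖q‖ ≤ 1 := by
      rw [hq, norm_div, div_le_one (norm_pos_iff.2 hz2)]
      exact hle
    have hqmem : ∀ z ∈ ball (0 : ℂ) 1, q * z ∈ ball (0 : ℂ) 1 := by
      intro z hz
      rw [mem_ball_zero_iff] at hz ⊢
      rw [norm_mul]
      calc ‖q‖ * ‖z‖ ≤ 1 * ‖z‖ := by gcongr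
        _ < 1 := by rw [one_mul]; exact hz
    have hmem : ∀ z ∈ ball (0 : ℂ) 1, (a : ℂ) * f (q * z) + b * f z ∈ f '' ball 0 1 := by
      intro z hz
      have := hf.2.2.2.2 (⟨q * z, hqmem z hz, rfl⟩ : f (q * z) ∈ f '' ball 0 1)
        (⟨z, hz, rfl⟩ : f z ∈ f '' ball 0 1) ha hb hab
      simpa using this
    have hdiff : DifferentiableOn ℂ (fun z => (a : ℂ) * f (q * z) + b * f z) (ball 0 1) := by
      apply DifferentiableOn.add
      · apply DifferentiableOn.const_mul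
        exact hf.1.comp ((differentiable_id.const_mul q).differentiableOn) hqmem
      · exact hf.1.const_mul _
    set h : ℂ → ℂ := fun z => g ((a : ℂ) * f (q * z) + b * f z) with hh
    have hhd : DifferentiableOn ℂ h (ball 0 1) := hg.comp hdiff hmem
    have hh0 : h 0 = 0 := by
      have h0 := hgf 0 (by simp)
      rw [hf.2.2.1] at h0
      simp only [hh, mul_zero, hf.2.2.1, add_zero, h0]
    have hhm : MapsTo h (ball 0 1) (ball (h 0) 1) := by
      rw [hh0]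
      exact fun z hz => hmaps (hmem z hz)
    have hz2m : z₂ ∈ ball (0 : ℂ) 1 := by
      rw [mem_ball_zero_iff]
      exact h₂.trans_lt hρ
    have hschwarz : ‖h z₂‖ ≤ ‖z₂‖ := by
      apply Complex.norm_le_norm_of_mapsTo_ball hhd _ hh0 (mem_ball_zero_iff.1 hz2m)
      rw [hh0] at hhm
      exact hhm.mono_right ball_subset_closedBall
    refine ⟨h z₂, hschwarz.trans h₂, ?_⟩
    obtain ⟨z', hz', hfz'⟩ := hmem z₂ hz2m
    have hqz : q * z₂ = z₁ := by
      rw [hq]; field_simp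
    simp only [hh]
    rw [← hfz', hgf z' hz', hfz', hqz]

end Pool.Agent.H67.OmArc
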