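import Pool.Agent.H67.OmArc.Lens
import Pool.Agent.H67.OmArc.Arcs

set_option autoImplicit false

/-!
# Domains bounded by an arc and two tangent lines
-/

namespace Pool.Agent.H67.OmArc

open Complex Metric Set Filter Topology MeasureTheory

namespace Lens

/-- the region cut out by the two tangent lines and the arc -/
def Ureg : Set ℂ := {w | 5 * w.re + 12 * w.im < 13 ∧ 5 * w.re - 12 * w.im < 13 ∧
  (Complex.normSq w < 1 ∨ 5/13 < w.re)}

lemma isOpen_Ureg : IsOpen Ureg := by
  have h1 : IsOpen {w : ℂ | 5 * w.re + 12 * w.im < 13} :=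
    isOpen_lt (by fun_prop) continuous_const
  have h2 : IsOpen {w : ℂ | 5 * w.re - 12 * w.im < 13} :=
    isOpen_lt (by fun_prop) continuous_const
  have h3 : IsOpen {w : ℂ | Complex.normSq w < 1} :=
    isOpen_lt Complex.continuous_normSq continuous_const
  have h4 : IsOpen {w : ℂ | 5/13 < w.re} :=
    isOpen_lt continuous_const (by fun_prop)
  exact h1.inter (h2.inter (h3.union h4))

lemma closure_Ureg : closure Ureg ⊆ {w | 5 * w.re + 12 * w.im ≤ 13 ∧
    5 * w.re - 12 * w.im ≤ 13 ∧ (Complex.normSq w ≤ 1 ∨ 5/13 ≤ w.re)} := by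
  have h1 : IsClosed {w : ℂ | 5 * w.re + 12 * w.im ≤ 13} :=
    isClosed_le (by fun_prop) continuous_const
  have h2 : IsClosed {w : ℂ | 5 * w.re - 12 * w.im ≤ 13} :=
    isClosed_le (by fun_prop) continuous_const
  have h3 : IsClosed {w : ℂ | Complex.normSq w ≤ 1} :=
    isClosed_le Complex.continuous_normSq continuous_const
  have h4 : IsClosed {w : ℂ | 5/13 ≤ w.re} :=
    isClosed_le continuous_const (by fun_prop)
  apply closure_minimal _ (h1.inter (h2.inter (h3.union h4)))
  rintro w ⟨ha, hb, hc⟩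
  refine ⟨ha.le, hb.le, ?_⟩
  rcases hc with hc | hc
  · exact Or.inl (le_of_lt hc)
  · exact Or.inr (le_of_lt hc)

lemma isBounded_Ureg : Bornology.IsBounded Ureg := by
  rw [isBounded_iff_forall_norm_le]
  refine ⟨5, ?_⟩
  rintro w ⟨h1, h2, h3⟩
  rcases h3 with h3 | h3
  · rw [Complex.normSq_eq_norm_sq] at h3
    nlinarith [norm_nonneg w]
  · have h4 : |w.re| ≤ 13/5 := by
      rw [abs_le]
      constructor <;> linarith
    have h5 : |w.im| ≤ 13/12 := by
      rw [abs_le]
      constructor <;> linarith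
    have h6 := Complex.norm_le_abs_re_add_abs_im w
    linarith

lemma norm_Gp_line {w : ℂ} (h1 : 5 * w.re + 12 * w.im = 13) (h2 : 5 * w.re - 12 * w.im ≤ 13)
    (h3 : Complex.normSq w ≤ 1 ∨ 5/13 ≤ w.re) : ‖Gp w‖ ≤ 1 := by
  have hx : 5/13 ≤ w.re := by
    rcases h3 with h3 | h3
    · rw [Complex.normSq_apply] at h3
      have hy : w.im = (13 - 5 * w.re) / 12 := by linarith
      rw [hy] at h3
      nlinarith [sq_nonneg (13 * w.re - 5)]
    · exact h3
  have hx2 : w.re ≤ 13/5 := by linarith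
  set s : ℝ := (13 * w.re - 5) / 12 with hs
  have hw : w = (⟨(5 + 12 * s) / 13, (12 - 5 * s) / 13⟩ : ℂ) := by
    apply Complex.ext
    · simp only [hs]
      ring
    · simp only [hs]
      linarith
  rw [hw]
  apply norm_Gp_seg
  · rw [hs]; linarith
  · rw [hs]; linarith

lemma norm_Gp_frontier {w : ℂ} (hw : w ∈ frontier Ureg) : ‖Gp w‖ ≤ 1 := by
  rw [frontier, isOpen_Ureg.interior_eq] at hw
  obtain ⟨hcl, hn⟩ := hw
  obtain ⟨h1, h2, h3⟩ := closure_Ureg hcl
  rcases eq_or_lt_of_le h1 with e1 | l1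
  · exact norm_Gp_line e1 h2 h3
  rcases eq_or_lt_of_le h2 with e2 | l2
  · have hconj : ‖Gp ((starRingEnd ℂ) w)‖ ≤ 1 := by
      apply norm_Gp_line
      · rw [Complex.conj_re, Complex.conj_im]; linarith
      · rw [Complex.conj_re, Complex.conj_im]; linarith
      · rw [Complex.normSq_conj, Complex.conj_re]; exact h3
    rwa [Gp_conj, Complex.norm_conj] at hconj
  have h4 : 1 ≤ Complex.normSq w ∧ w.re ≤ 5/13 := by
    by_contra hcon
    rw [not_and_or, not_le, not_le] at hcon
    exact hn ⟨l1, l2, hcon⟩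
  obtain ⟨h5, h6⟩ := h4
  rcases h3 with h3 | h3
  · apply norm_Gp_arc _ h6
    have : Complex.normSq w = 1 := le_antisymm h3 h5
    rw [Complex.normSq_eq_norm_sq] at this
    nlinarith [norm_nonneg w]
  · exfalso
    have h7 : w.re = 5/13 := le_antisymm h6 h3
    rw [Complex.normSq_apply, h7] at h5
    rw [h7] at l1 l2
    have h8 : w.im < 12/13 := by linarith
    have h9 : -(12/13) < w.im := by linarith
    nlinarith

lemma norm_Gp_le {w : ℂ} (hw : w ∈ Ureg) : ‖Gp w‖ ≤ 1 :=
  Complex.norm_le_of_forall_mem_frontier_norm_le isBounded_Ureg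
    (differentiable_Gp.diffContOnCl) (fun _ hz => norm_Gp_frontier hz) (subset_closure hw)

lemma not_forall_mem_Ureg {f : ℂ → ℂ} (hf : f ∈ Sc) {u : ℂ} (hu : ‖u‖ = 1)
    (h : ∀ w ∈ img f, u * w / ((471/500 : ℝ) : ℂ) ∈ Ureg) : False := by
  have h0mem : (0 : ℂ) ∈ ball (0 : ℂ) 1 := by simp
  set g : ℂ → ℂ := fun z => Gp (u * f z / ((471/500 : ℝ) : ℂ)) with hg
  have hinner : DifferentiableOn ℂ (fun z => u * f z / ((471/500 : ℝ) : ℂ)) (ball 0 1) :=
    (hf.1.const_mul u).div_const _
  have hgd : DifferentiableOn ℂ g (ball 0 1) :=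
    differentiable_Gp.comp_differentiableOn hinner
  have hg0 : g 0 = 0 := by
    simp [hg, hf.2.2.1, Gp]
  have hmaps : MapsTo g (ball 0 1) (closedBall (g 0) 1) := by
    intro z hz
    rw [hg0, mem_closedBall_zero_iff]
    exact norm_Gp_le (h _ ⟨z, hz, rfl⟩)
  have h1 := Complex.norm_deriv_le_div_of_mapsTo_ball hgd hmaps one_pos
  have hfd : HasDerivAt f 1 0 := by
    have := (hf.1.differentiableAt (isOpen_ball.mem_nhds h0mem)).hasDerivAt
    rwa [hf.2.2.2.1] at this
  have hin : HasDerivAt (fun z => u * f z / ((471/500 : ℝ) : ℂ))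
      (u * 1 / ((471/500 : ℝ) : ℂ)) 0 := (hfd.const_mul u).div_const _
  have hGd : HasDerivAt Gp (9423/10000) (u * f 0 / ((471/500 : ℝ) : ℂ)) := by
    rw [hf.2.2.1, mul_zero, zero_div]
    exact deriv_Gp_zero
  have hcomp : HasDerivAt g (9423/10000 * (u * 1 / ((471/500 : ℝ) : ℂ))) 0 :=
    hGd.comp_of_eq (0 : ℂ) hin rfl
  have e1 : ‖(9423/10000 : ℂ)‖ = 9423/10000 := by norm_num
  have e2 : ‖((471/500 : ℝ) : ℂ)‖ = 471/500 := by
    rw [Complex.norm_real]; norm_num
  rw [hcomp.deriv, norm_mul, e1, mul_one, norm_div, hu, e2] at h1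
  norm_num at h1

end Lens

lemma arc_halfPlane_le {D : Set ℂ} (hc : Convex ℝ D) (ho : IsOpen D) (h0 : (0 : ℂ) ∈ D)
    {r s t : ℝ} (hr : 0 < r) (harc : arc r s t ⊆ frontier D) {τ : ℝ}
    (hτ : τ ∈ Ioo s t) {w : ℂ} (hw : w ∈ D) :
    (w * Complex.exp (-(τ * Complex.I))).re ≤ r := by
  set b : ℂ := (r : ℂ) * Complex.exp (τ * Complex.I) with hb
  have hbf : b ∈ frontier D := harc ⟨τ, Ioo_subset_Icc_self hτ, rfl⟩
  have hbD : b ∉ D := by
    rw [frontier, ho.interior_eq] at hbf
    exact hbf.2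
  obtain ⟨v, hv, hsep⟩ := exists_separating hc ho hbD
  have hcl : ∀ x ∈ closure D, (v * x).re ≤ (v * b).re := by
    intro x hx
    have hclosed : IsClosed {x : ℂ | (v * x).re ≤ (v * b).re} :=
      isClosed_le (by fun_prop) continuous_const
    exact closure_minimal (fun y hy => (hsep y hy).le) hclosed hx
  set g : ℝ → ℝ := fun x => (v * ((r : ℂ) * Complex.exp (x * Complex.I))).re with hg
  have hmax : IsLocalMax g τ := by
    filter_upwards [Icc_mem_nhds hτ.1 hτ.2] with x hx
    exact hcl _ (frontier_subset_closure (harc ⟨x, hx, rfl⟩))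
  have hder : HasDerivAt g ((v * ((r : ℂ) * (Complex.exp (τ * Complex.I) * Complex.I))).re) τ := by
    have h1 := (((Crit.hasDerivAt_exp τ).const_mul (r : ℂ)).const_mul v)
    exact (Complex.reCLM.hasFDerivAt.comp_hasDerivAt τ h1)
  have hzero := hmax.hasDerivAt_eq_zero hder
  set c : ℂ := v * Complex.exp (τ * Complex.I) with hcdef
  have e1 : v * ((r : ℂ) * (Complex.exp (τ * Complex.I) * Complex.I)) = (r : ℂ) * (c * Complex.I) := by
    rw [hcdef]; ring
  rw [e1, Complex.re_ofReal_mul, Complex.mul_I_re] at hzero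
  have him : c.im = 0 := by
    rcases mul_eq_zero.1 hzero with h | h
    · exact absurd h hr.ne'
    · linarith
  have hnorm : ‖c‖ = 1 := by
    rw [hcdef, norm_mul, hv, Complex.norm_exp_ofReal_mul_I, one_mul]
  have hpos : 0 < c.re := by
    have h1 := hsep 0 h0
    have e2 : v * b = (r : ℂ) * c := by rw [hcdef, hb]; ring
    rw [e2, Complex.re_ofReal_mul, mul_zero, Complex.zero_re] at h1
    exact pos_of_mul_pos_right h1 hr.le
  have hc1 : c = 1 := by
    have h2 : Complex.normSq c = 1 := by rw [Complex.normSq_eq_norm_sq, hnorm]; norm_num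
    rw [Complex.normSq_apply, him] at h2
    apply Complex.ext
    · rw [Complex.one_re]; nlinarith
    · rw [Complex.one_im]; exact him
  have hveq : v = Complex.exp (-(τ * Complex.I)) := by
    have h3 : Complex.exp (τ * Complex.I) * Complex.exp (-(τ * Complex.I)) = 1 := by
      rw [← Complex.exp_add, add_neg_cancel, Complex.exp_zero]
    calc v = v * (Complex.exp (τ * Complex.I) * Complex.exp (-(τ * Complex.I))) := by
          rw [h3, mul_one]
      _ = c * Complex.exp (-(τ * Complex.I)) := by rw [hcdef]; ring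
      _ = _ := by rw [hc1, one_mul]
  have h4 := (hsep w hw).le
  have e2 : v * b = (r : ℂ) * c := by rw [hcdef, hb]; ring
  rw [e2, hc1, mul_one, Complex.ofReal_re, hveq, mul_comm] at h4
  exact h4

lemma arc_halfPlane {D : Set ℂ} (hc : Convex ℝ D) (ho : IsOpen D) (h0 : (0 : ℂ) ∈ D)
    {r s t : ℝ} (hr : 0 < r) (hst : s < t) (harc : arc r s t ⊆ frontier D) {τ : ℝ}
    (hτ : τ ∈ Icc s t) {w : ℂ} (hw : w ∈ D) :
    (w * Complex.exp (-(τ * Complex.I))).re < r := by
  have hle : ∀ x ∈ D, (x * Complex.exp (-(τ * Complex.I))).re ≤ r := by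
    intro x hx
    have hclosed : IsClosed {σ : ℝ | (x * Complex.exp (-(σ * Complex.I))).re ≤ r} :=
      isClosed_le (by fun_prop) continuous_const
    have hsub : Ioo s t ⊆ {σ : ℝ | (x * Complex.exp (-(σ * Complex.I))).re ≤ r} :=
      fun σ hσ => arc_halfPlane_le hc ho h0 hr harc hσ hx
    have := closure_minimal hsub hclosed
    rw [closure_Ioo hst.ne] at this
    exact this hτ
  obtain ⟨ε, hε, hball⟩ := Metric.isOpen_iff.1 ho w hw
  have hmem : w + ((ε / 2 : ℝ) : ℂ) * Complex.exp (τ * Complex.I) ∈ ball w ε := by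
    rw [mem_ball, dist_eq_norm, add_sub_cancel_left, norm_mul, Complex.norm_exp_ofReal_mul_I,
      mul_one, Complex.norm_real, Real.norm_of_nonneg (by positivity)]
    linarith
  have h1 := hle _ (hball hmem)
  have h3 : Complex.exp (τ * Complex.I) * Complex.exp (-(τ * Complex.I)) = 1 := by
    rw [← Complex.exp_add, add_neg_cancel, Complex.exp_zero]
  have e : (w + ((ε / 2 : ℝ) : ℂ) * Complex.exp (τ * Complex.I)) *
      Complex.exp (-(τ * Complex.I)) = w * Complex.exp (-(τ * Complex.I)) + ((ε / 2 : ℝ) : ℂ) := by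
    linear_combination ((ε / 2 : ℝ) : ℂ) * h3
  rw [e, Complex.add_re, Complex.ofReal_re] at h1
  linarith

lemma uncovered_arc {D : Set ℂ} (ho : IsOpen D) (h0 : (0 : ℂ) ∈ D) {r s t : ℝ} (hr : 0 < r)
    (hst : s < t) (hfr : frontier D ⊆ arc r s t ∪ tangentLine r s ∪ tangentLine r t) :
    ∀ θ ∈ Ioc (-Real.pi) Real.pi, (r : ℂ) * Complex.exp (θ * Complex.I) ∉ D →
      θ ∈ arcSet s t := by
  intro θ hθ hn
  obtain ⟨x, hx, hxf⟩ := segment_hits_frontier ho h0 hn
  obtain ⟨a, b, ha, hb, hab, hxe⟩ := hx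
  have hx2 : x = (b : ℂ) * ((r : ℂ) * Complex.exp (θ * Complex.I)) := by
    rw [← hxe]; simp
  have hb1 : b ≤ 1 := by linarith
  have htan : ∀ τ : ℝ, x ∈ tangentLine r τ →
      Complex.exp (θ * Complex.I) = Complex.exp (τ * Complex.I) := by
    intro τ hτ
    have h1 : (x * Complex.exp (-(τ * Complex.I))).re = r := hτ
    have e : x * Complex.exp (-(τ * Complex.I)) =
        ((b * r : ℝ) : ℂ) * Complex.exp ((θ - τ : ℝ) * Complex.I) := by
      rw [hx2]
      push_cast
      rw [sub_mul, sub_eq_add_neg, Complex.exp_add]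
      ring
    rw [e, Complex.re_ofReal_mul, Complex.exp_ofReal_mul_I_re] at h1
    have h2 : Real.cos (θ - τ) ≤ 1 := Real.cos_le_one _
    have h3 : b * Real.cos (θ - τ) = 1 := by
      have : r * (b * Real.cos (θ - τ)) = r * 1 := by linarith
      exact mul_left_cancel₀ hr.ne' this
    have h4 : Real.cos (θ - τ) = 1 := by
      apply le_antisymm h2
      by_contra hcon
      push Not at hcon
      rcases le_or_gt 0 (Real.cos (θ - τ)) with h | h
      · nlinarith
      · nlinarith
    obtain ⟨n, hn'⟩ := (Real.cos_eq_one_iff _).1 h4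
    exact exp_eq_iff.2 ⟨n, by linarith⟩
  rcases hfr hxf with (h | h) | h
  · obtain ⟨τ, hτ, hτx⟩ := h
    refine ⟨hθ, τ, hτ, ?_⟩
    have h1 : (r : ℂ) * Complex.exp (τ * Complex.I) =
        (b : ℂ) * ((r : ℂ) * Complex.exp (θ * Complex.I)) := by
      rw [← hx2]; exact hτx
    have h2 : r = b * r := by
      have := congrArg norm h1
      rwa [norm_circle hr.le, norm_mul, norm_circle hr.le, Complex.norm_real,
        Real.norm_of_nonneg hb] at this
    have h3 : b = 1 := by
      have : b * r = 1 * r := by linarith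
      exact mul_right_cancel₀ hr.ne' this
    rw [h3, Complex.ofReal_one, one_mul] at h1
    exact (mul_left_cancel₀ (Complex.ofReal_ne_zero.2 hr.ne') h1).symm
  · exact ⟨hθ, s, left_mem_Icc.2 hst.le, htan s h⟩
  · exact ⟨hθ, t, right_mem_Icc.2 hst.le, htan t h⟩

lemma mem_Ureg_of_halfPlanes {W : ℂ}
    (h : ∀ σ ∈ Icc phi0 (2 * Real.pi - phi0), (W * Complex.exp (-(σ * Complex.I))).re < 1) :
    W ∈ Lens.Ureg := by
  have hp := phi0_pos
  have hp2 := phi0_lt
  have hpi := Real.pi_pos
  have key : ∀ σ : ℝ, (W * Complex.exp (-(σ * Complex.I))).re =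
      W.re * Real.cos σ + W.im * Real.sin σ := by
    intro σ
    have e : -((σ : ℂ) * Complex.I) = ((-σ : ℝ) : ℂ) * Complex.I := by push_cast; ring
    rw [e, Complex.mul_re, Complex.exp_ofReal_mul_I_re, Complex.exp_ofReal_mul_I_im,
      Real.cos_neg, Real.sin_neg]
    ring
  have h1 := h phi0 ⟨le_refl _, by linarith⟩
  have h2 := h (2 * Real.pi - phi0) ⟨by linarith, le_refl _⟩
  rw [key, cos_phi0, sin_phi0] at h1
  rw [key, Real.cos_two_pi_sub, Real.sin_two_pi_sub, cos_phi0, sin_phi0] at h2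
  refine ⟨by linarith, by linarith, ?_⟩
  by_contra hcon
  rw [not_or, not_lt, not_lt] at hcon
  obtain ⟨h3, h4⟩ := hcon
  rw [Complex.normSq_eq_norm_sq] at h3
  have hnorm : 1 ≤ ‖W‖ := by nlinarith [norm_nonneg W]
  set A := Complex.arg W with hA
  have hrep := Complex.norm_mul_exp_arg_mul_I W
  have hre : W.re = ‖W‖ * Real.cos A := by
    conv_lhs => rw [← hrep]
    rw [Complex.re_ofReal_mul, Complex.exp_ofReal_mul_I_re]
  have him : W.im = ‖W‖ * Real.sin A := by
    conv_lhs => rw [← hrep]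
    rw [Complex.im_ofReal_mul, Complex.exp_ofReal_mul_I_im]
  have hcos : Real.cos A ≤ 5/13 := by
    by_contra hc
    push Not at hc
    nlinarith
  have hval : (W.re * Real.cos A + W.im * Real.sin A) = ‖W‖ := by
    rw [hre, him]
    have := Real.sin_sq_add_cos_sq A
    linear_combination ‖W‖ * this
  have habs : phi0 ≤ |A| := by
    by_contra hc
    push Not at hc
    have h5 := Real.cos_lt_cos_of_nonneg_of_le_pi_div_two (abs_nonneg A) hp2.le hc
    rw [Real.cos_abs, cos_phi0] at h5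
    linarith
  have hA1 := Complex.neg_pi_lt_arg W
  have hA2 := Complex.arg_le_pi W
  rcases le_or_gt 0 A with hA0 | hA0
  · rw [abs_of_nonneg hA0] at habs
    have h6 := h A ⟨habs, by linarith⟩
    rw [key, hval] at h6
    linarith
  · rw [abs_of_neg hA0] at habs
    have h6 := h (A + 2 * Real.pi) ⟨by linarith, by linarith⟩
    rw [key, Real.cos_add_two_pi, Real.sin_add_two_pi, hval] at h6
    linarith

/-- A domain of shape (iii) for `r = 471/500` covers more of the circle than the competitor. -/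
theorem lt_cov_of_isArcTangent {f : ℂ → ℂ} (hf : f ∈ Sc)
    (h : IsArcTangent (471/500) (img f)) :
    ENNReal.ofReal (2 * phi0) < cov (img f) (471/500) := by
  obtain ⟨s, t, hst, hts, harc, hfr⟩ := h
  have hp := phi0_pos
  have hr : (0 : ℝ) < 471/500 := by norm_num
  have ho := img_open hf
  have h0 := zero_mem_img hf
  have hcov := cov_ge ho (volume_arcSet hst.le) (by linarith)
    (uncovered_arc ho h0 hr hst hfr)
  refine lt_of_lt_of_le ?_ hcov
  by_contra hcon
  have hlen : 2 * Real.pi - (t - s) ≤ 2 * phi0 := by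
    by_contra hc
    push Not at hc
    apply hcon
    rw [ENNReal.ofReal_lt_ofReal_iff (by linarith)]
    exact hc
  set m : ℝ := (s + t) / 2 - Real.pi with hm
  apply Lens.not_forall_mem_Ureg hf (u := Complex.exp (((-m : ℝ) : ℂ) * Complex.I))
    (Complex.norm_exp_ofReal_mul_I _)
  intro w hw
  apply mem_Ureg_of_halfPlanes
  intro σ hσ
  have hτ : σ + m ∈ Icc s t := by
    constructor
    · rw [hm]; linarith [hσ.1]
    · rw [hm]; linarith [hσ.2]
  have h1 := arc_halfPlane (img_convex hf) ho h0 hr hst harc hτ hw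
  have e : Complex.exp (((-m : ℝ) : ℂ) * Complex.I) * w / ((471/500 : ℝ) : ℂ) *
      Complex.exp (-(σ * Complex.I)) =
      (w * Complex.exp (-(((σ + m : ℝ) : ℂ) * Complex.I))) / ((471/500 : ℝ) : ℂ) := by
    have e2 : Complex.exp (-(((σ + m : ℝ) : ℂ) * Complex.I)) =
        Complex.exp (((-m : ℝ) : ℂ) * Complex.I) * Complex.exp (-(σ * Complex.I)) := by
      rw [← Complex.exp_add]
      congr 1
      push_cast
      ring
    rw [e2]
    ring
  rw [e, Complex.div_ofReal_re, div_lt_one hr]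
  exact h1

end Pool.Agent.H67.OmArc
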