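import Pool.Agent.H67.OmArc.Arcs

set_option autoImplicit false

/-!
# Half-planes and symmetric sectors
-/

namespace Pool.Agent.H67.OmArc

open Complex Metric Set Filter Topology MeasureTheory

/-- reduce an angle to `(-π, π]` -/
lemma exists_reduced (θ β : ℝ) : ∃ ψ : ℝ, -Real.pi < ψ ∧ ψ ≤ Real.pi ∧
    Complex.exp (θ * Complex.I) = Complex.exp (((β + ψ : ℝ) : ℂ) * Complex.I) := by
  set n : ℤ := ⌈(θ - β - Real.pi) / (2 * Real.pi)⌉ with hn
  have hpi : 0 < 2 * Real.pi := by positivity
  refine ⟨θ - β - n * (2 * Real.pi), ?_, ?_, ?_⟩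
  · have := Int.ceil_lt_add_one ((θ - β - Real.pi) / (2 * Real.pi))
    rw [← hn] at this
    have h2 : ((n : ℝ) - 1) < (θ - β - Real.pi) / (2 * Real.pi) := by linarith
    rw [lt_div_iff₀ hpi] at h2
    linarith
  · have := Int.le_ceil ((θ - β - Real.pi) / (2 * Real.pi))
    rw [div_le_iff₀ hpi, ← hn] at this
    linarith
  · exact exp_eq_iff.2 ⟨n, by ring⟩

lemma exp_add_two_pi (x : ℝ) : Complex.exp (((x + 2 * Real.pi : ℝ) : ℂ) * Complex.I) =
    Complex.exp (x * Complex.I) := exp_eq_iff.2 ⟨1, by push_cast; ring⟩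

/-- unit complex numbers as exponentials -/
lemma exists_angle_of_norm_one {u : ℂ} (hu : ‖u‖ = 1) :
    u = Complex.exp ((Complex.arg u : ℝ) * Complex.I) := by
  have := Complex.norm_mul_exp_arg_mul_I u
  rw [hu, Complex.ofReal_one, one_mul] at this
  exact this.symm

lemma conj_mul_exp {u : ℂ} (hu : ‖u‖ = 1) {r θ ψ : ℝ}
    (h : Complex.exp (θ * Complex.I) = Complex.exp (((Complex.arg u + ψ : ℝ) : ℂ) * Complex.I)) :
    (starRingEnd ℂ) u * ((r : ℂ) * Complex.exp (θ * Complex.I)) =
      (r : ℂ) * Complex.exp (ψ * Complex.I) := by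
  have h1 := exists_angle_of_norm_one hu
  have h2 : (starRingEnd ℂ) u * u = 1 := by
    rw [mul_comm, Complex.mul_conj, Complex.normSq_eq_norm_sq, hu]; simp
  rw [h]
  push_cast
  rw [add_mul, Complex.exp_add, ← h1]
  linear_combination (r : ℂ) * Complex.exp (ψ * Complex.I) * h2

lemma two_phi0_lt : 2 * phi0 < 5 * Real.pi / 6 := by
  have h1 := phi0_lt
  have h2 : Real.sin (Real.pi / 2 - phi0) < Real.pi / 2 - phi0 := Real.sin_lt (by linarith)
  rw [Real.sin_pi_div_two_sub, cos_phi0] at h2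
  have := Real.pi_lt_d2
  linarith

/-- A half-plane covers more of the circle than the competitor. -/
theorem lt_cov_of_isHalfPlane {f : ℂ → ℂ} (hf : f ∈ Sc) {r : ℝ} (hr : 0 < r)
    (h : IsHalfPlane (img f)) : ENNReal.ofReal (2 * phi0) < cov (img f) r := by
  obtain ⟨u, d, hu, hD⟩ := h
  have hd : 0 < d := by
    have h0 := zero_mem_img hf
    rw [hD] at h0
    simpa using h0
  have hpi := Real.pi_pos
  set β := Complex.arg u with hβ
  have hunc : ∀ θ ∈ Ioc (-Real.pi) Real.pi, (r : ℂ) * Complex.exp (θ * Complex.I) ∉ img f →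
      θ ∈ arcSet (β - Real.pi / 2) (β + Real.pi / 2) := by
    intro θ hθ hn
    obtain ⟨ψ, h1, h2, h3⟩ := exists_reduced θ β
    refine ⟨hθ, β + ψ, ?_, h3⟩
    rw [hD] at hn
    have hn2 : d ≤ ((starRingEnd ℂ) u * ((r : ℂ) * Complex.exp (θ * Complex.I))).re :=
      not_lt.1 hn
    rw [conj_mul_exp hu h3, Complex.re_ofReal_mul, Complex.exp_ofReal_mul_I_re] at hn2
    have hcos : 0 < Real.cos ψ := by
      by_contra hc
      push Not at hc
      nlinarith
    constructor
    · by_contra hc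
      push Not at hc
      have : Real.cos (-ψ) ≤ 0 :=
        Real.cos_nonpos_of_pi_div_two_le_of_le (by linarith) (by linarith)
      rw [Real.cos_neg] at this
      linarith
    · by_contra hc
      push Not at hc
      have : Real.cos ψ ≤ 0 :=
        Real.cos_nonpos_of_pi_div_two_le_of_le (by linarith) (by linarith)
      linarith
  have hcov := cov_ge (img_open hf) (volume_arcSet (by linarith)) (by linarith) hunc
  refine lt_of_lt_of_le ?_ hcov
  rw [ENNReal.ofReal_lt_ofReal_iff (by linarith)]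
  have := two_phi0_lt
  linarith

lemma abs_arg_lt_of {W : ℂ} {α : ℝ} (h0 : 0 < α) (h1 : α < Real.pi / 2)
    (h : |W.im| * Real.cos α < W.re * Real.sin α) : W ≠ 0 ∧ |W.arg| < α := by
  have hs : 0 < Real.sin α := Real.sin_pos_of_pos_of_lt_pi h0 (by linarith)
  have hc : 0 < Real.cos α := Real.cos_pos_of_mem_Ioo ⟨by linarith, h1⟩
  have hre : 0 < W.re := by
    by_contra hcon
    push Not at hcon
    have : 0 ≤ |W.im| * Real.cos α := by positivity
    nlinarith
  have hne : W ≠ 0 := by
    intro h0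
    rw [h0] at hre
    simp at hre
  refine ⟨hne, ?_⟩
  by_contra hcon
  push Not at hcon
  have harg : |W.arg| < Real.pi / 2 := Complex.abs_arg_lt_pi_div_two_iff.2 (Or.inl hre)
  have hrep := Complex.norm_mul_exp_arg_mul_I W
  have hpos : 0 < ‖W‖ := norm_pos_iff.2 hne
  have e1 : W.re = ‖W‖ * Real.cos |W.arg| := by
    conv_lhs => rw [← hrep]
    rw [Complex.re_ofReal_mul, Complex.exp_ofReal_mul_I_re, Real.cos_abs]
  have e2 : |W.im| = ‖W‖ * Real.sin |W.arg| := by
    conv_lhs => rw [← hrep]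
    rw [Complex.im_ofReal_mul, Complex.exp_ofReal_mul_I_im, abs_mul, abs_of_pos hpos,
      Real.abs_sin_eq_sin_abs_of_abs_le_pi (by linarith)]
  rw [e1, e2] at h
  have h2 : 0 ≤ Real.sin (|W.arg| - α) :=
    Real.sin_nonneg_of_nonneg_of_le_pi (by linarith) (by linarith)
  rw [Real.sin_sub] at h2
  nlinarith

/-- The vertex of a sector `f(Δ)` of half-angle `α` has distance at least `π/(4α)` from `0`. -/
lemma sector_vertex {f : ℂ → ℂ} (hf : f ∈ Sc) {u : ℂ} {a α : ℝ} (hu : ‖u‖ = 1) (h0 : 0 < α)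
    (h1 : α < Real.pi / 2)
    (hD : img f = {w | (starRingEnd ℂ) u * w + a ≠ 0 ∧ |((starRingEnd ℂ) u * w + a).arg| < α}) :
    0 < a ∧ Real.pi / (4 * α) ≤ a := by
  have hz := zero_mem_img hf
  have ha : 0 < a := by
    rw [hD] at hz
    obtain ⟨hz1, hz2⟩ := hz
    rw [mul_zero, zero_add] at hz1 hz2
    by_contra hcon
    push Not at hcon
    have hne : a ≠ 0 := by
      intro h; rw [h] at hz1; simp at hz1
    have hlt : a < 0 := lt_of_le_of_ne hcon hne
    rw [Complex.arg_ofReal_of_neg hlt, abs_of_pos Real.pi_pos] at hz2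
    linarith [Real.pi_pos]
  refine ⟨ha, ?_⟩
  set k : ℝ := Real.pi / (2 * α) with hk
  have hkpos : 0 < k := by positivity
  have hane : (a : ℂ) ≠ 0 := Complex.ofReal_ne_zero.2 ha.ne'
  set W : ℂ → ℂ := fun z => ((starRingEnd ℂ) u * f z + a) / a with hW
  have hWmem : ∀ z ∈ ball (0 : ℂ) 1, W z ≠ 0 ∧ |(W z).arg| < α := by
    intro z hz'
    have hm : f z ∈ img f := ⟨z, hz', rfl⟩
    rw [hD] at hm
    obtain ⟨hm1, hm2⟩ := hm
    refine ⟨div_ne_zero hm1 hane, ?_⟩
    have e : W z = ((a⁻¹ : ℝ) : ℂ) * ((starRingEnd ℂ) u * f z + a) := by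
      rw [hW]
      push_cast
      field_simp
    rw [e, Complex.arg_real_mul _ (by positivity)]
    exact hm2
  have hslit : ∀ z ∈ ball (0 : ℂ) 1, W z ∈ Complex.slitPlane := by
    intro z hz'
    obtain ⟨hm1, hm2⟩ := hWmem z hz'
    left
    have : |(W z).arg| < Real.pi / 2 := by linarith
    rcases Complex.abs_arg_lt_pi_div_two_iff.1 this with h | h
    · exact h
    · exact absurd h hm1
  have hWd : DifferentiableOn ℂ W (ball 0 1) :=
    ((hf.1.const_mul _).add_const _).div_const _
  set g : ℂ → ℂ := fun z => 1 - Complex.exp ((k : ℂ) * Complex.log (W z)) with hg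
  have hgd : DifferentiableOn ℂ g (ball 0 1) := by
    apply DifferentiableOn.const_sub
    apply DifferentiableOn.cexp
    apply DifferentiableOn.const_mul
    exact hWd.clog hslit
  have hW0 : W 0 = 1 := by
    simp only [hW, hf.2.2.1, mul_zero, zero_add]
    exact div_self hane
  have hg0 : g 0 = 0 := by
    simp [hg, hW0]
  have hre : ∀ z ∈ ball (0 : ℂ) 1, (g z).re < 1 := by
    intro z hz'
    obtain ⟨hm1, hm2⟩ := hWmem z hz'
    rw [hg]
    simp only [Complex.sub_re, Complex.one_re]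
    have : 0 < (Complex.exp ((k : ℂ) * Complex.log (W z))).re := by
      rw [Complex.exp_re]
      apply mul_pos (Real.exp_pos _)
      rw [Complex.im_ofReal_mul, Complex.log_im]
      have h2 : |k * (W z).arg| < Real.pi / 2 := by
        rw [abs_mul, abs_of_pos hkpos]
        calc k * |(W z).arg| < k * α := by gcongr
          _ = Real.pi / 2 := by rw [hk]; field_simp
      rw [abs_lt] at h2
      exact Real.cos_pos_of_mem_Ioo ⟨by linarith [h2.1], h2.2⟩
    linarith
  have hder := deriv_le_of_re_lt hgd hg0 hre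
  have h0mem : (0 : ℂ) ∈ ball (0 : ℂ) 1 := by simp
  have hfd : HasDerivAt f 1 0 := by
    have := (hf.1.differentiableAt (isOpen_ball.mem_nhds h0mem)).hasDerivAt
    rwa [hf.2.2.2.1] at this
  have hWder : HasDerivAt W ((starRingEnd ℂ) u * 1 / a) 0 :=
    ((hfd.const_mul _).add_const _).div_const _
  have hgder : HasDerivAt g (-(Complex.exp ((k : ℂ) * Complex.log (W 0)) *
      ((k : ℂ) * (((starRingEnd ℂ) u * 1 / a) / W 0)))) 0 :=
    (((hWder.clog (hslit 0 h0mem)).const_mul (k : ℂ)).cexp).const_sub 1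
  rw [hgder.deriv, hW0, Complex.log_one, mul_zero, Complex.exp_zero, one_mul, div_one, mul_one,
    norm_neg, norm_mul, norm_div, Complex.norm_conj, hu, Complex.norm_real, Complex.norm_real,
    Real.norm_of_nonneg hkpos.le, Real.norm_of_nonneg ha.le] at hder
  have h3 : k / a ≤ 2 := by
    have : k * (1 / a) = k / a := by ring
    linarith
  rw [div_le_iff₀ ha] at h3
  have h4 : Real.pi / (4 * α) = k / 2 := by
    rw [hk]; field_simp; norm_num
  rw [h4]
  linarith

lemma sector_uncovered {f : ℂ → ℂ} {u : ℂ} {a α r : ℝ} (hu : ‖u‖ = 1) (h0 : 0 < α)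
    (h1 : α < Real.pi / 2) (hr : 0 < r)
    (hD : img f = {w | (starRingEnd ℂ) u * w + a ≠ 0 ∧ |((starRingEnd ℂ) u * w + a).arg| < α})
    {θ ψ : ℝ} (hψ1 : -Real.pi < ψ) (hψ2 : ψ ≤ Real.pi)
    (hψ : Complex.exp (θ * Complex.I) = Complex.exp (((Complex.arg u + ψ : ℝ) : ℂ) * Complex.I))
    (hn : (r : ℂ) * Complex.exp (θ * Complex.I) ∉ img f) :
    a * Real.sin α ≤ r * Real.sin (|ψ| - α) := by
  by_contra hcon
  push Not at hcon
  apply hn
  rw [hD]
  apply abs_arg_lt_of h0 h1
  rw [conj_mul_exp hu hψ]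
  have habs : |ψ| ≤ Real.pi := abs_le.2 ⟨hψ1.le, hψ2⟩
  have e1 : ((r : ℂ) * Complex.exp (ψ * Complex.I) + a).im = r * Real.sin ψ := by
    rw [Complex.add_im, Complex.im_ofReal_mul, Complex.exp_ofReal_mul_I_im, Complex.ofReal_im,
      add_zero]
  have e2 : ((r : ℂ) * Complex.exp (ψ * Complex.I) + a).re = r * Real.cos ψ + a := by
    rw [Complex.add_re, Complex.re_ofReal_mul, Complex.exp_ofReal_mul_I_re, Complex.ofReal_re]
  rw [e1, e2, abs_mul, abs_of_pos hr, Real.abs_sin_eq_sin_abs_of_abs_le_pi habs,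
    ← Real.cos_abs ψ]
  rw [Real.sin_sub] at hcon
  nlinarith

/-- A symmetric sector covers more of the circle of radius `r < 1` than the competitor. -/
theorem lt_cov_of_isSymmSector {f : ℂ → ℂ} (hf : f ∈ Sc) {r : ℝ} (hr : 0 < r) (hr1 : r < 1)
    (h : IsSymmSector (img f)) : ENNReal.ofReal (2 * phi0) < cov (img f) r := by
  obtain ⟨u, a, α, hu, h0, h1, hD⟩ := h
  obtain ⟨ha, hva⟩ := sector_vertex hf hu h0 h1 hD
  have hpi := Real.pi_pos
  set β := Complex.arg u with hβ
  have hs : 0 < Real.sin α := Real.sin_pos_of_pos_of_lt_pi h0 (by linarith)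
  have h2phi := two_phi0_lt
  have hphi := phi0_pos
  have hmono : ∀ x y : ℝ, -(Real.pi / 2) ≤ x → y ≤ Real.pi / 2 → x ≤ y →
      Real.sin x ≤ Real.sin y := fun x y hx hy hxy =>
    Real.sin_le_sin_of_le_of_le_pi_div_two hx hy hxy
  rcases le_or_gt (Real.pi / 4) α with hα | hα
  · -- wide sectors
    have hge : 1 / 2 ≤ a * Real.sin α := by
      have hj := Real.mul_le_sin h0.le h1.le
      calc (1 : ℝ) / 2 = Real.pi / (4 * α) * (2 / Real.pi * α) := by field_simp; norm_num
        _ ≤ a * Real.sin α := by gcongr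
    have hunc : ∀ θ ∈ Ioc (-Real.pi) Real.pi, (r : ℂ) * Complex.exp (θ * Complex.I) ∉ img f →
        θ ∈ arcSet (β + 5 * Real.pi / 12) (β + 2 * Real.pi - 5 * Real.pi / 12) := by
      intro θ hθ hn
      obtain ⟨ψ, hψ1, hψ2, hψ⟩ := exists_reduced θ β
      have hun := sector_uncovered hu h0 h1 hr hD hψ1 hψ2 hψ hn
      have hsin : 1 / 2 < Real.sin (|ψ| - α) := by
        by_contra hc
        push Not at hc
        nlinarith
      have habs : 5 * Real.pi / 12 ≤ |ψ| := by
        by_contra hc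
        push Not at hc
        have h5 := hmono (|ψ| - α) (Real.pi / 6) (by linarith [abs_nonneg ψ]) (by linarith)
          (by linarith)
        rw [Real.sin_pi_div_six] at h5
        linarith
      rcases le_or_gt 0 ψ with hp | hp
      · rw [abs_of_nonneg hp] at habs
        exact ⟨hθ, β + ψ, ⟨by linarith, by linarith⟩, hψ⟩
      · rw [abs_of_neg hp] at habs
        refine ⟨hθ, β + ψ + 2 * Real.pi, ⟨by linarith, by linarith⟩, ?_⟩
        rw [hψ, exp_add_two_pi]
    have hcov := cov_ge (img_open hf) (volume_arcSet (by linarith)) (by linarith) hunc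
    refine lt_of_lt_of_le ?_ hcov
    rw [ENNReal.ofReal_lt_ofReal_iff (by linarith)]
    linarith
  · -- narrow sectors
    have hsq : 0 < Real.sin (Real.pi / 4) :=
      Real.sin_pos_of_pos_of_lt_pi (by linarith) (by linarith)
    have hge : Real.sin (Real.pi / 4) ≤ a * Real.sin α := by
      have hconc := strictConcaveOn_sin_Icc.concaveOn
      have hx : (0 : ℝ) ∈ Icc 0 Real.pi := ⟨le_refl _, hpi.le⟩
      have hy : Real.pi / 4 ∈ Icc 0 Real.pi := ⟨by linarith, by linarith⟩
      have hl0 : 0 ≤ 4 * α / Real.pi := by positivity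
      have hl1 : 4 * α / Real.pi ≤ 1 := by
        rw [div_le_one hpi]; linarith
      have := hconc.2 hx hy (sub_nonneg.2 hl1) hl0 (by ring)
      simp only [smul_eq_mul, Real.sin_zero, mul_zero, zero_add] at this
      have e : 4 * α / Real.pi * (Real.pi / 4) = α := by field_simp
      rw [e] at this
      calc Real.sin (Real.pi / 4) = Real.pi / (4 * α) * (4 * α / Real.pi *
            Real.sin (Real.pi / 4)) := by field_simp
        _ ≤ a * Real.sin α :=
            mul_le_mul hva this (mul_nonneg hl0 hsq.le) ha.le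
    have hunc : ∀ θ ∈ Ioc (-Real.pi) Real.pi, (r : ℂ) * Complex.exp (θ * Complex.I) ∉ img f →
        θ ∈ arcSet (β + α + Real.pi / 4) (β + α + 3 * Real.pi / 4) ∪
          arcSet (β - α - 3 * Real.pi / 4) (β - α - Real.pi / 4) := by
      intro θ hθ hn
      obtain ⟨ψ, hψ1, hψ2, hψ⟩ := exists_reduced θ β
      have hun := sector_uncovered hu h0 h1 hr hD hψ1 hψ2 hψ hn
      have habsle : |ψ| ≤ Real.pi := abs_le.2 ⟨hψ1.le, hψ2⟩
      have hsin : Real.sin (Real.pi / 4) < Real.sin (|ψ| - α) := by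
        by_contra hc
        push Not at hc
        nlinarith
      have hlo : Real.pi / 4 ≤ |ψ| - α := by
        by_contra hc
        push Not at hc
        have h5 := hmono (|ψ| - α) (Real.pi / 4) (by linarith [abs_nonneg ψ]) (by linarith) hc.le
        linarith
      have hhi : |ψ| - α ≤ 3 * Real.pi / 4 := by
        by_contra hc
        push Not at hc
        have h5 := hmono (Real.pi - (|ψ| - α)) (Real.pi / 4) (by linarith) (by linarith)
          (by linarith)
        rw [Real.sin_pi_sub] at h5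
        linarith
      rcases le_or_gt 0 ψ with hp | hp
      · rw [abs_of_nonneg hp] at hlo hhi
        exact Or.inl ⟨hθ, β + ψ, ⟨by linarith, by linarith⟩, hψ⟩
      · rw [abs_of_neg hp] at hlo hhi
        exact Or.inr ⟨hθ, β + ψ, ⟨by linarith, by linarith⟩, hψ⟩
    have hvol : volume (arcSet (β + α + Real.pi / 4) (β + α + 3 * Real.pi / 4) ∪
          arcSet (β - α - 3 * Real.pi / 4) (β - α - Real.pi / 4)) ≤ ENNReal.ofReal Real.pi := by
      refine (measure_union_le _ _).trans ?_
      refine (add_le_add (volume_arcSet (by linarith)) (volume_arcSet (by linarith))).trans ?_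
      rw [← ENNReal.ofReal_add (by linarith) (by linarith)]
      apply ENNReal.ofReal_le_ofReal
      linarith
    have hcov := cov_ge (img_open hf) hvol hpi.le hunc
    refine lt_of_lt_of_le ?_ hcov
    rw [ENNReal.ofReal_lt_ofReal_iff (by linarith)]
    linarith

end Pool.Agent.H67.OmArc
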